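import Pool.Agent.II.Defs
import Pool.Agent.Helper11.ZP.Almost

/-! # Random intersections of a surface of given degree and a surface of given multidegree: definitions -/

open Finset Pool.Agent.Helper11.ZP Pool.Agent.Helper20.ZT Pool.Agent.II

namespace Pool.Agent.MX

/-- the exponents of the monomials of total degree at most `D` -/
abbrev DegIdx (D : ℕ) : Type := {e : Fin 3 → Fin (D + 1) // ∑ i, (e i : ℕ) ≤ D}

/-- the exponents of the monomials of degree at most `δ i` in `T i` -/
abbrev BoxIdx (δ : Fin 3 → ℕ) : Type := (i : Fin 3) → Fin (δ i + 1)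

/-- the indices of the coefficients of both polynomials -/
abbrev Idx (D : ℕ) (δ : Fin 3 → ℕ) : Type := DegIdx D ⊕ BoxIdx δ

variable {D : ℕ} {δ : Fin 3 → ℕ}

/-- the exponents `0` -/
def f0 (D : ℕ) : DegIdx D := ⟨fun _ => 0, by simp⟩

/-- the exponents of the monomial `T_i ^ D` -/
def fTop (D : ℕ) (i : Fin 3) : DegIdx D :=
  ⟨fun j => if j = i then Fin.last D else 0, by
    rw [Finset.sum_eq_single i] <;> simp +contextual⟩

/-- the exponents of the monomial of the highest degree in each variable -/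
def gTop (δ : Fin 3 → ℕ) : BoxIdx δ := fun i => Fin.last (δ i)

/-- the exponents of the monomial `T_k ^ e` times the highest powers of the other variables -/
def gMon (δ : Fin 3 → ℕ) (k : Fin 3) (e : Fin (δ k + 1)) : BoxIdx δ := Function.update (gTop δ) k e

/-- the value of the polynomial of total degree at most `D` with the coefficients `a` -/
noncomputable def fEval (a : DegIdx D → ℂ) (x : Fin 3 → ℂ) : ℂ := ∑ e, a e * ∏ i, x i ^ (e.1 i : ℕ)

/-- the value of the polynomial of degree at most `δ i` in `T i` with the coefficients `b` -/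
noncomputable def gEval (b : BoxIdx δ → ℂ) (x : Fin 3 → ℂ) : ℂ := ∑ e, b e * ∏ i, x i ^ (e i : ℕ)

/-- the curve -/
def curve (θ : Idx D δ → ℚ) : Set (Fin 3 → ℂ) :=
  {x | fEval (fun e => (θ (.inl e) : ℂ)) x = 0 ∧ gEval (fun e => (θ (.inr e) : ℂ)) x = 0}

/-- the residue of a rational number which is given by the residues of its numerator and denominator -/
def rr {p : ℕ} (z : ZMod p × ZMod p) : ZMod p := z.1 * z.2⁻¹

/-- a residue class modulo `p` with a centre of trace `≠ 0` whose discriminant `t ^ 2 - 4 p` does not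
become a square after multiplication by an integer in `[-X, -1]` -/
def GoodRes (v : AbsoluteValue ℂ ℝ) (X : ℕ) (p : ℕ) : Set (ZMod p) :=
  {r | ∃ (t : ℤ) (x₀ : ℂ), Center v p (r.val : ℤ) t x₀ ∧ t ≠ 0 ∧
    ∀ B : ℤ, -(X : ℤ) ≤ B → B < 0 → ¬ IsSquare (B * (t ^ 2 - 4 * p))}

/-- the leading coefficient of `g` in the variables `T_i`, `i ≠ k`, is a constant times a product of
factors `T_k - s`, `s ∈ R` -/
def SplitAt (p : ℕ) (R : Set (ZMod p)) (δ : Fin 3 → ℕ) (b : BoxIdx δ → ZMod p) (k : Fin 3) : Prop :=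
  ∃ s : Fin (δ k) → ZMod p, (∀ l, s l ∈ R) ∧ ∀ e : Fin (δ k + 1),
    b (gMon δ k e) = b (gTop δ) * (∏ l, (Polynomial.X - Polynomial.C (s l))).coeff e

/-- the residues of the coefficients are good: the leading coefficient of `g` is a unit, and the three
leading coefficients in two variables split with roots in `R` -/
def GoodG (p : ℕ) (R : Set (ZMod p)) (δ : Fin 3 → ℕ) (b : BoxIdx δ → ZMod p) : Prop :=
  b (gTop δ) ≠ 0 ∧ ∀ k, SplitAt p R δ b k

/-- first local event: a pole of the constant coefficient of `f`, no other poles, good residues of `g` -/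
def E1 (D : ℕ) (δ : Fin 3 → ℕ) (p : ℕ) (R : Set (ZMod p)) : Set (Idx D δ → ZMod p × ZMod p) :=
  {x | (x (.inl (f0 D))).1 ≠ 0 ∧ (x (.inl (f0 D))).2 = 0 ∧ (∀ j, j ≠ .inl (f0 D) → (x j).2 ≠ 0) ∧
    GoodG p R δ fun e => rr (x (.inr e))}

/-- second local event: a pole of the constant coefficient of `g`, no other poles, and the
coefficients of `T_i ^ D` in `f` are units -/
def E2 (D : ℕ) (δ : Fin 3 → ℕ) (p : ℕ) : Set (Idx D δ → ZMod p × ZMod p) :=
  {x | (x (.inr fun _ => 0)).1 ≠ 0 ∧ (x (.inr fun _ => 0)).2 = 0 ∧ (∀ j, j ≠ .inr (fun _ => 0) → (x j).2 ≠ 0) ∧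
    ∀ i, rr (x (.inl (fTop D i))) ≠ 0}

end Pool.Agent.MX
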