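import Pool.Agent.MX.Defs
import Pool.Agent.II.Glue79
import Pool.Agent.II.Key9b

/-! # No unlikely intersections from the special subvarieties with few classes

If a set `W` is disjoint from all the special subvarieties with fewer than `k` classes, then it has no
unlikely intersections for the codimension `k`: a subvariety `A` of `W ∩ S`, where `S` has `r < dim A + k`
classes, contains a point at which the coordinates of `dim A` classes are special, so this point is on a
special subvariety with `r - dim A < k` classes. -/

open Finset Pool.Agent.Helper11.ZP Pool.Agent.Helper20.ZT Pool.Agent.II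

namespace Pool.Agent.MX

/-- a point of `S` at which the coordinates of the classes in `B` are special lies on a special
subvariety with `B.card` classes less -/
theorem exists_specialize {n : ℕ} (S : SpecialData n) (B : Finset (Fin S.r)) {x : Fin n → ℂ}
    (hx : x ∈ S.carrier) (hB : ∀ i s, S.cls i = some s → s ∈ B → IsSpecialPoint (x i)) :
    ∃ S' : SpecialData n, S'.r = S.r - B.card ∧ x ∈ S'.carrier := by
  classical
  have hcard : (univ \ B).card = S.r - B.card := by
    rw [card_sdiff_of_subset (subset_univ _), card_univ, Fintype.card_fin]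
  let e : {s // s ∈ univ \ B} ≃ Fin (S.r - B.card) := Finset.equivFinOfCardEq hcard
  let f : Fin S.r → Option (Fin (S.r - B.card)) := fun s =>
    if h : s ∈ univ \ B then some (e ⟨s, h⟩) else none
  have hf : ∀ s t, f s = some t → s = (e.symm t).1 := by
    intro s t h
    by_cases hs : s ∈ univ \ B
    · have h1 : f s = some (e ⟨s, hs⟩) := dif_pos hs
      rw [h1] at h
      rw [← Option.some_injective _ h, Equiv.symm_apply_apply]
    · have h1 : f s = none := dif_neg hs
      rw [h1] at h
      exact absurd h (by simp)
  have hf' : ∀ t, f (e.symm t).1 = some t := by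
    intro t
    have h1 : f (e.symm t).1 = some (e ⟨(e.symm t).1, (e.symm t).2⟩) := dif_pos (e.symm t).2
    rw [h1, Subtype.coe_eta, Equiv.apply_symm_apply]
  have hn : ∀ s, f s = none → s ∈ B := by
    intro s h
    by_contra hs
    have hs' : s ∈ univ \ B := mem_sdiff.2 ⟨mem_univ _, hs⟩
    have h1 : f s = some (e ⟨s, hs'⟩) := dif_pos hs'
    rw [h1] at h
    exact absurd h (by simp)
  refine ⟨⟨S.r - B.card, fun i => (S.cls i).bind f, ?_, x, ?_, S.g, S.hg⟩, rfl, ?_, ?_⟩
  · intro t
    obtain ⟨i, hi⟩ := S.surj (e.symm t).1
    exact ⟨i, by simp only [hi, Option.bind_some]; exact hf' t⟩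
  · intro i hi
    rcases h : S.cls i with _ | s
    · rw [hx.1 i h]
      exact S.hc i h
    · refine hB i s h (hn s ?_)
      simpa [h] using hi
  · intro i _
    rfl
  · intro t
    obtain ⟨τ, hτ⟩ := hx.2 (e.symm t).1
    refine ⟨τ, fun i hi => hτ i ?_⟩
    rcases h : S.cls i with _ | s
    · simp [h] at hi
    · have h1 : f s = some t := by simpa [h] using hi
      rw [← hf s t h1]

/-- **no unlikely intersections** from the special subvarieties with few classes -/
theorem noUnlikely_of_r {n k : ℕ} {W : Set (Fin n → ℂ)}
    (h : ∀ S : SpecialData n, S.r < k → Disjoint W S.carrier) : NoUnlikely k W := by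
  refine noUnlikely_of_key fun S A hA hAW hAS => ?_
  by_contra hcon
  push Not at hcon
  obtain ⟨x, B, hx, hB, hspec⟩ := exists_CM_classes (infinite_CMBy one_pos) hA S hAS
  obtain ⟨S', hS', hxS'⟩ := exists_specialize S B (hAS hx) fun i s hi hs => (hspec i s hi hs).special
  have hBr : B.card ≤ S.r := by
    have := card_le_univ B
    rwa [Fintype.card_fin] at this
  exact Set.disjoint_left.1 (h S' (by omega)) (hAW hx) hxS'

end Pool.Agent.MX
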