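import Pool.Agent.MX.Defs
import Pool.Agent.II.Bad62v2
import Pool.Agent.II.Row2b

/-! # Row H: counting good residues -/

set_option autoImplicit false

open Finset Pool.Agent.Helper11.ZP Pool.Agent.Helper20.ZT Pool.Agent.II

namespace Pool.Agent.MX

theorem card_bad : ∃ C : ℝ, 0 < C ∧ ∀ (v : AbsoluteValue ℂ ℝ) (p : ℕ), IsNonarchimedean v → p.Prime → 5 ≤ p →
    v (p : ℂ) < 1 → ∀ X : ℕ, (Nat.card ((GoodRes v X p)ᶜ : Set (ZMod p)) : ℝ) ≤
      C * (1 + X) * (p : ℝ) ^ (5 / 6 : ℝ) := by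
  classical
  obtain ⟨C₀, hC₀⟩ := count_trace
  set C₁ : ℝ := max C₀ 1 with hC₁
  have hC₁0 : 0 < C₁ := lt_of_lt_of_le one_pos (le_max_right _ _)
  refine ⟨40 * C₁, by positivity, fun v p hv hp h5 hvp X => ?_⟩
  haveI : NeZero p := ⟨hp.ne_zero⟩
  have hcen : ∀ r : ZMod p, ∃ t x₀, Center v p (r.val : ℤ) t x₀ :=
    fun r => exists_center hv hp h5 hvp _
  choose t x₀ hc using hcen
  set E := C₁ * (p : ℝ) ^ (5 / 6 : ℝ) with hE
  have hE0 : 0 ≤ E := by positivity
  have hfib : ∀ c : ℤ, (((univ : Finset (ZMod p)).filter (fun r => t r = c)).card : ℝ) ≤ E := by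
    intro c
    have h1 := hC₀ v p hv hp hvp c
      (((univ : Finset (ZMod p)).filter (fun r => t r = c)).image (fun r => (r.val : ℤ))) (by
        intro b hb
        rw [mem_image] at hb
        obtain ⟨r, hr, rfl⟩ := hb
        rw [mem_filter] at hr
        refine ⟨by positivity, by exact_mod_cast ZMod.val_lt r, x₀ r, ?_⟩
        rw [← hr.2]
        exact hc r)
    rw [Finset.card_image_of_injective] at h1
    · refine h1.trans (mul_le_mul_of_nonneg_right (le_max_left _ _) (by positivity))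
    · intro r s hrs
      simp only [Nat.cast_inj] at hrs
      exact ZMod.val_injective p hrs
  have hlt : ∀ r : ZMod p, t r ^ 2 < 4 * (p : ℤ) := fun r => center_lt62 hp (hc r)
  have hfld : ∀ B : ℤ, B ≠ 0 → (((univ : Finset (ZMod p)).filter (fun r =>
      IsSquare (B * (t r ^ 2 - 4 * (p : ℤ))))).card : ℝ) ≤ 40 * E := by
    intro B hB
    set F := (univ : Finset (ZMod p)).filter (fun r =>
      IsSquare (B * (t r ^ 2 - 4 * (p : ℤ)))) with hF
    have h1 : (F.image t).card ≤ 40 := by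
      refine count_field hp hB _ ?_
      intro c hc'
      rw [mem_image] at hc'
      obtain ⟨r, hr, rfl⟩ := hc'
      rw [hF, mem_filter] at hr
      exact ⟨hlt r, hr.2⟩
    have h2 : (F.card : ℝ) ≤ ∑ c ∈ F.image t,
        (((univ : Finset (ZMod p)).filter (fun r => t r = c)).card : ℝ) := by
      rw [Finset.card_eq_sum_card_image t F]
      push_cast
      refine Finset.sum_le_sum fun c _ => ?_
      rw [Nat.cast_le]
      refine Finset.card_le_card ?_
      intro r hr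
      rw [mem_filter] at hr
      rw [mem_filter]
      exact ⟨mem_univ _, hr.2⟩
    refine h2.trans ?_
    refine (Finset.sum_le_card_nsmul _ _ _ (fun c _ => hfib c)).trans ?_
    rw [nsmul_eq_mul]
    refine mul_le_mul_of_nonneg_right (by exact_mod_cast h1) hE0
  have hsub : ((GoodRes v X p)ᶜ : Set (ZMod p)) ⊆
      (((univ : Finset (ZMod p)).filter (fun r => t r = 0) ∪
        (Icc (-(X : ℤ)) (-1)).biUnion (fun B => (univ : Finset (ZMod p)).filter (fun r =>
          IsSquare (B * (t r ^ 2 - 4 * (p : ℤ)))))  : Finset (ZMod p)) : Set (ZMod p)) := by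
    intro r hr
    rw [Finset.mem_coe, mem_union, mem_biUnion]
    by_contra hcon
    rw [not_or] at hcon
    apply hr
    refine ⟨t r, x₀ r, hc r, fun h0 => hcon.1 (mem_filter.2 ⟨mem_univ _, h0⟩), ?_⟩
    intro B hB1 hB2 hsq
    exact hcon.2 ⟨B, mem_Icc.2 ⟨hB1, by omega⟩, mem_filter.2 ⟨mem_univ _, hsq⟩⟩
  have hcard := Set.ncard_le_ncard hsub (Finset.finite_toSet _)
  rw [Set.ncard_coe_finset] at hcard
  rw [Nat.card_coe_set_eq]
  have hI : (Icc (-(X : ℤ)) (-1)).card = X := by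
    rw [Int.card_Icc]
    omega
  calc ((((GoodRes v X p)ᶜ : Set (ZMod p)).ncard : ℕ) : ℝ)
      ≤ (((univ : Finset (ZMod p)).filter (fun r => t r = 0)).card : ℝ) +
        (((Icc (-(X : ℤ)) (-1)).biUnion (fun B => (univ : Finset (ZMod p)).filter (fun r =>
          IsSquare (B * (t r ^ 2 - 4 * (p : ℤ)))))).card : ℝ) := by
        exact_mod_cast hcard.trans (card_union_le _ _)
    _ ≤ E + ∑ B ∈ Icc (-(X : ℤ)) (-1), (((univ : Finset (ZMod p)).filter (fun r =>
          IsSquare (B * (t r ^ 2 - 4 * (p : ℤ))))).card : ℝ) := by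
        refine add_le_add (hfib 0) ?_
        exact_mod_cast card_biUnion_le
    _ ≤ E + ∑ _B ∈ Icc (-(X : ℤ)) (-1), 40 * E := by
        refine add_le_add le_rfl (sum_le_sum fun B hB => hfld B ?_)
        rw [mem_Icc] at hB
        omega
    _ = E + X * (40 * E) := by rw [sum_const, hI, nsmul_eq_mul]
    _ ≤ 40 * C₁ * (1 + X) * (p : ℝ) ^ (5 / 6 : ℝ) := by
        have e : 40 * C₁ * (1 + X) * (p : ℝ) ^ (5 / 6 : ℝ) = 40 * E + X * (40 * E) := by
          rw [hE]; ring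
        rw [e]
        linarith

theorem half_good (X : ℕ) : ∃ P₀ : ℕ, ∀ (v : AbsoluteValue ℂ ℝ) (p : ℕ), IsNonarchimedean v → p.Prime →
    5 ≤ p → v (p : ℂ) < 1 → P₀ ≤ p → (p : ℝ) / 2 ≤ (Nat.card (GoodRes v X p) : ℝ) := by
  obtain ⟨C, hC, h⟩ := card_bad
  refine ⟨⌈(2 * C * (1 + X)) ^ 6⌉₊, fun v p hv hp h5 hvp hP => ?_⟩
  haveI : NeZero p := ⟨hp.ne_zero⟩
  have hp0 : (0 : ℝ) < p := by exact_mod_cast hp.pos
  have h1 := h v p hv hp h5 hvp X
  have h2 : (2 * C * (1 + X)) ^ 6 ≤ (p : ℝ) := (Nat.le_ceil _).trans (by exact_mod_cast hP)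
  have hx : (0 : ℝ) ≤ 2 * C * (1 + X) := by positivity
  have h3 : 2 * C * (1 + X) ≤ (p : ℝ) ^ (1 / 6 : ℝ) := by
    have h4 := Real.rpow_le_rpow (by positivity) h2 (show (0 : ℝ) ≤ ((6 : ℕ) : ℝ)⁻¹ by positivity)
    rw [Real.pow_rpow_inv_natCast hx (by norm_num)] at h4
    refine h4.trans (le_of_eq ?_)
    norm_num
  have h5' : (p : ℝ) ^ (1 / 6 : ℝ) * (p : ℝ) ^ (5 / 6 : ℝ) = p := by
    rw [← Real.rpow_add hp0]
    norm_num
  have h6 : C * (1 + X) * (p : ℝ) ^ (5 / 6 : ℝ) ≤ (p : ℝ) / 2 := by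
    have h7 := mul_le_mul_of_nonneg_right h3 (show (0 : ℝ) ≤ (p : ℝ) ^ (5 / 6 : ℝ) by positivity)
    rw [h5'] at h7
    linarith
  have h8 := Set.ncard_add_ncard_compl (GoodRes v X p) (Set.toFinite _) (Set.toFinite _)
  rw [Nat.card_zmod] at h8
  rw [Nat.card_coe_set_eq] at h1 ⊢
  have h9 : ((GoodRes v X p).ncard : ℝ) + (((GoodRes v X p)ᶜ : Set (ZMod p)).ncard : ℝ) = p := by
    exact_mod_cast h8
  linarith

end Pool.Agent.MX
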