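import Pool.Agent.MX.Defs

/-! # Counting the local events: a pole at one index and no other poles -/

open Finset Pool.Agent.Helper11.ZP Pool.Agent.Helper20.ZT Pool.Agent.II

namespace Pool.Agent.MX

theorem card_event {ι : Type} [Fintype ι] [DecidableEq ι] (κ : ι) {p : ℕ} (hp : p.Prime)
    (A : Set ({j // j ≠ κ} → ZMod p)) {c : ℝ} (hc : 0 ≤ c)
    (hA : c * (p : ℝ) ^ Fintype.card {j // j ≠ κ} ≤ (Nat.card A : ℝ)) :
    (c / 2 ^ (Fintype.card ι)) / p ≤ (Nat.card {x : ι → ZMod p × ZMod p | (x κ).1 ≠ 0 ∧ (x κ).2 = 0 ∧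
      (∀ j, j ≠ κ → (x j).2 ≠ 0) ∧ (fun j : {j // j ≠ κ} => rr (x j.1)) ∈ A} : ℝ) /
      (p : ℝ) ^ (2 * Fintype.card ι) := by
  classical
  have hfact : Fact p.Prime := ⟨hp⟩
  set N := Fintype.card {j // j ≠ κ} with hN
  have hcard : Fintype.card ι = N + 1 := by
    have h1 : N = Fintype.card ι - 1 := by
      rw [hN, Fintype.card_subtype_compl, Fintype.card_subtype_eq]
    have h2 : 0 < Fintype.card ι := Fintype.card_pos_iff.2 ⟨κ⟩
    omega
  have hp0 : (0 : ℝ) < p := by exact_mod_cast hp.pos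
  have hp2 : (2 : ℝ) ≤ p := by exact_mod_cast hp.two_le
  set E : Set (ι → ZMod p × ZMod p) := {x : ι → ZMod p × ZMod p | (x κ).1 ≠ 0 ∧ (x κ).2 = 0 ∧
      (∀ j, j ≠ κ → (x j).2 ≠ 0) ∧ (fun j : {j // j ≠ κ} => rr (x j.1)) ∈ A} with hE
  let Φ : {a : ZMod p // a ≠ 0} × A × ({j // j ≠ κ} → {a : ZMod p // a ≠ 0}) → E := fun z =>
    ⟨fun j => if h : j = κ then (z.1.1, 0) else (z.2.1.1 ⟨j, h⟩ * (z.2.2 ⟨j, h⟩).1, (z.2.2 ⟨j, h⟩).1), by
      refine ⟨?_, ?_, ?_, ?_⟩
      · simp only [dif_pos]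
        exact z.1.2
      · simp only [dif_pos]
      · intro j hj
        simp only [dif_neg hj]
        exact (z.2.2 ⟨j, hj⟩).2
      · have : (fun j : {j // j ≠ κ} => rr (if h : j.1 = κ then ((z.1.1, 0) : ZMod p × ZMod p) else
            (z.2.1.1 ⟨j.1, h⟩ * (z.2.2 ⟨j.1, h⟩).1, (z.2.2 ⟨j.1, h⟩).1))) = z.2.1.1 := by
          funext j
          simp only [dif_neg j.2, rr]
          rw [mul_assoc, mul_inv_cancel₀ (z.2.2 _).2, mul_one]
        rw [this]
        exact z.2.1.2⟩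
  have hinj : Function.Injective Φ := by
    intro z z' h
    have h0 : ∀ j, (Φ z).1 j = (Φ z').1 j := fun j => by rw [h]
    have h1 : z.1 = z'.1 := by
      have := h0 κ
      simp only [Φ, dif_pos] at this
      exact Subtype.ext (congrArg Prod.fst this)
    have h2 : z.2.2 = z'.2.2 := by
      funext j
      have := h0 j.1
      simp only [Φ, dif_neg j.2] at this
      exact Subtype.ext (congrArg Prod.snd this)
    have h3 : z.2.1 = z'.2.1 := by
      apply Subtype.ext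
      funext j
      have := congrArg Prod.fst (h0 j.1)
      simp only [Φ, dif_neg j.2] at this
      rw [h2] at this
      exact mul_right_cancel₀ (z'.2.2 _).2 this
    exact Prod.ext h1 (Prod.ext h3 h2)
  have hle : Nat.card ({a : ZMod p // a ≠ 0} × A × ({j // j ≠ κ} → {a : ZMod p // a ≠ 0})) ≤
      Nat.card E := Nat.card_le_card_of_injective Φ hinj
  have hunits : Nat.card {a : ZMod p // a ≠ 0} = p - 1 := by
    rw [Nat.card_eq_fintype_card, Fintype.card_subtype_compl, Fintype.card_subtype_eq, ZMod.card]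
  rw [Nat.card_prod, Nat.card_prod, Nat.card_fun, hunits, Nat.card_eq_fintype_card (α := {j // j ≠ κ}), ← hN] at hle
  have hcp : ((p - 1 : ℕ) : ℝ) = (p : ℝ) - 1 := by
    rw [Nat.cast_sub hp.one_le]; simp
  have hle' : ((p : ℝ) - 1) * ((Nat.card A : ℝ) * ((p : ℝ) - 1) ^ N) ≤ (Nat.card E : ℝ) := by
    rw [← hcp]
    exact_mod_cast hle
  rw [hcard]
  rw [div_le_div_iff₀ hp0 (by positivity)]
  have hhalf : (p : ℝ) / 2 ≤ (p : ℝ) - 1 := by linarith
  have hpow : ((p : ℝ) / 2) ^ N ≤ ((p : ℝ) - 1) ^ N := pow_le_pow_left₀ (by positivity) hhalf N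
  calc c / 2 ^ (N + 1) * (p : ℝ) ^ (2 * (N + 1))
      = ((p : ℝ) / 2) * ((c * (p : ℝ) ^ N) * ((p : ℝ) / 2) ^ N) * p := by
        rw [div_pow]
        field_simp
        ring
    _ ≤ ((p : ℝ) - 1) * ((Nat.card A : ℝ) * ((p : ℝ) - 1) ^ N) * p := by
        refine mul_le_mul_of_nonneg_right ?_ hp0.le
        refine mul_le_mul hhalf (mul_le_mul hA hpow (by positivity) (by positivity)) (by positivity) (by linarith)
    _ ≤ (Nat.card E : ℝ) * p := mul_le_mul_of_nonneg_right hle' hp0.le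

end Pool.Agent.MX
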