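import Pool.Agent.MX.RowI1
import Pool.Agent.MX.RowI2
/-! Row I3 of MP_130685 MixedIntersections (helper46): the probabilities of the two local events. -/
set_option autoImplicit false
open Finset Pool.Agent.Helper11.ZP Pool.Agent.Helper20.ZT Pool.Agent.II

namespace Pool.Agent.MX

theorem card_E1 (D : ℕ) (δ : Fin 3 → ℕ) : ∃ c : ℝ, 0 < c ∧ ∃ P₀ : ℕ, ∀ p : ℕ, p.Prime → P₀ ≤ p →
    ∀ R : Set (ZMod p), (p : ℝ) / 2 ≤ (Nat.card R : ℝ) →
      c / p ≤ (Nat.card (E1 D δ p R) : ℝ) / (p : ℝ) ^ (2 * Fintype.card (Idx D δ)) := by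
  obtain ⟨c, hc, P₀, h⟩ := card_goodG δ
  refine ⟨c / 2 ^ (Fintype.card (Idx D δ)), by positivity, P₀, fun p hp hP R hR => ?_⟩
  have : Fact p.Prime := ⟨hp⟩
  have : NeZero p := ⟨hp.ne_zero⟩
  have h0 := h p hp hP R hR
  let κ : Idx D δ := .inl (f0 D)
  let A : Set ({j // j ≠ κ} → ZMod p) := {y | GoodG p R δ fun e => y ⟨.inr e, Sum.inr_ne_inl⟩}
  have hA : c * (p : ℝ) ^ Fintype.card {j // j ≠ κ} ≤ (Nat.card A : ℝ) := by
    let Φ : ({j : DegIdx D // j ≠ f0 D} → ZMod p) × {b : BoxIdx δ → ZMod p // GoodG p R δ b} → A :=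
      fun w => ⟨fun j => Sum.rec (motive := fun z => z ≠ κ → ZMod p)
        (fun e he => w.1 ⟨e, fun h => he (congrArg Sum.inl h)⟩) (fun e _ => w.2.1 e) j.1 j.2, w.2.2⟩
    have hinj : Function.Injective Φ := by
      intro w w' hw
      have hw1 := congrArg Subtype.val hw
      refine Prod.ext (funext fun e => ?_) (Subtype.ext (funext fun e => ?_))
      · exact congrFun hw1 ⟨.inl e.1, fun h => e.2 (Sum.inl_injective h)⟩
      · exact congrFun hw1 ⟨.inr e, Sum.inr_ne_inl⟩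
    have h1 := Nat.card_le_card_of_injective Φ hinj
    rw [Nat.card_prod, Nat.card_eq_fintype_card (α := {j : DegIdx D // j ≠ f0 D} → ZMod p),
      Fintype.card_fun, ZMod.card] at h1
    have h2 : Fintype.card {j // j ≠ κ} =
        Fintype.card {j : DegIdx D // j ≠ f0 D} + Fintype.card (BoxIdx δ) := by
      have e1 : Fintype.card {j // j ≠ κ} = Fintype.card (Idx D δ) - 1 := by
        rw [Fintype.card_subtype_compl, Fintype.card_subtype_eq]
      have e2 : Fintype.card {j : DegIdx D // j ≠ f0 D} = Fintype.card (DegIdx D) - 1 := by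
        rw [Fintype.card_subtype_compl, Fintype.card_subtype_eq]
      have e3 : 0 < Fintype.card (DegIdx D) := Fintype.card_pos_iff.2 ⟨f0 D⟩
      have e4 : Fintype.card (Idx D δ) = Fintype.card (DegIdx D) + Fintype.card (BoxIdx δ) :=
        Fintype.card_sum
      omega
    rw [h2, pow_add]
    have h3 : ((p ^ Fintype.card {j : DegIdx D // j ≠ f0 D} *
        Nat.card {b : BoxIdx δ → ZMod p // GoodG p R δ b} : ℕ) : ℝ) ≤ (Nat.card A : ℝ) := by
      exact_mod_cast h1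
    refine le_trans ?_ h3
    push_cast
    have h4 : (0 : ℝ) ≤ (p : ℝ) ^ Fintype.card {j : DegIdx D // j ≠ f0 D} := by positivity
    have h5 := mul_le_mul_of_nonneg_left h0 h4
    linarith
  exact card_event κ hp A hc.le hA

theorem card_E2 (D : ℕ) (δ : Fin 3 → ℕ) : ∃ c : ℝ, 0 < c ∧ ∃ P₀ : ℕ, ∀ p : ℕ, p.Prime → P₀ ≤ p →
      c / p ≤ (Nat.card (E2 D δ p) : ℝ) / (p : ℝ) ^ (2 * Fintype.card (Idx D δ)) := by
  let κ : Idx D δ := .inr fun _ => 0
  refine ⟨(1 / 2) ^ Fintype.card {j // j ≠ κ} / 2 ^ (Fintype.card (Idx D δ)), by positivity, 0,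
    fun p hp _ => ?_⟩
  have : Fact p.Prime := ⟨hp⟩
  have : NeZero p := ⟨hp.ne_zero⟩
  let A : Set ({j // j ≠ κ} → ZMod p) := {y | ∀ i, y ⟨.inl (fTop D i), Sum.inl_ne_inr⟩ ≠ 0}
  have hA : (1 / 2 : ℝ) ^ Fintype.card {j // j ≠ κ} * (p : ℝ) ^ Fintype.card {j // j ≠ κ} ≤
      (Nat.card A : ℝ) := by
    let Φ : ({j // j ≠ κ} → (ZMod p)ˣ) → A := fun w => ⟨fun j => (w j : ZMod p), fun i => (w _).ne_zero⟩
    have hinj : Function.Injective Φ := by
      intro w w' hw
      have hw1 := congrArg Subtype.val hw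
      funext j
      exact Units.ext (congrFun hw1 j)
    have h1 := Nat.card_le_card_of_injective Φ hinj
    rw [Nat.card_eq_fintype_card (α := {j // j ≠ κ} → (ZMod p)ˣ), Fintype.card_fun,
      ZMod.card_units_eq_totient, Nat.totient_prime hp] at h1
    have h2 : (((p - 1) ^ Fintype.card {j // j ≠ κ} : ℕ) : ℝ) ≤ (Nat.card A : ℝ) := by
      exact_mod_cast h1
    refine le_trans ?_ h2
    rw [← mul_pow, Nat.cast_pow]
    have h3 : (2 : ℝ) ≤ p := by exact_mod_cast hp.two_le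
    refine pow_le_pow_left₀ (by positivity) ?_ _
    rw [Nat.cast_sub hp.one_lt.le]
    push_cast
    linarith
  exact card_event κ hp A (by positivity) hA

end Pool.Agent.MX
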