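import Pool.Agent.MX.Defs

/-! # Density: windows of primes, and three kinds of primes -/

open Finset Pool.Agent.Helper11.ZP Pool.Agent.Helper20.ZT Pool.Agent.II

namespace Pool.Agent.MX

open Classical in
/-- window form of `density_one` -/
theorem density_window {ι : Type} [Fintype ι] [DecidableEq ι] (E : ∀ p : ℕ, Set (ι → ZMod p × ZMod p))
    {c : ℝ} (hc : 0 < c) (P₀ : ℕ)
    (hE : ∀ p, p.Prime → P₀ ≤ p → c / p ≤ (Nat.card (E p) : ℝ) / (p : ℝ) ^ (2 * Fintype.card ι))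
    {ε : ℝ} (hε : 0 < ε) : ∃ Y : ℕ, ∀ᶠ H : ℕ in Filter.atTop,
      (((qBox ι H).filter (fun θ => ∀ p, p.Prime → P₀ ≤ p → p < Y → res p θ ∉ E p)).card : ℝ) ≤
        ε * ((qBox ι H).card : ℝ) := by
  set A : ℝ := 32 ^ Fintype.card ι with hA
  have hApos : 0 < A := by positivity
  obtain ⟨Y, hY⟩ := exists_sum_primes P₀ ((Real.log (A / ε)) / c)
  refine ⟨Y, ?_⟩
  set W := (range Y).filter (fun p => p.Prime ∧ P₀ ≤ p) with hW
  have hWp : ∀ p ∈ W, p.Prime := fun p hp => (mem_filter.1 hp).2.1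
  have hWp2 : ∀ p ∈ W, P₀ ≤ p := fun p hp => (mem_filter.1 hp).2.2
  have hWp3 : ∀ p ∈ W, p < Y := fun p hp => mem_range.1 (mem_filter.1 hp).1
  have hprod : ∏ p ∈ W, (1 - (Nat.card (E p) : ℝ) / (p : ℝ) ^ (2 * Fintype.card ι)) ≤ ε / A := by
    have h1 : ∏ p ∈ W, (1 - (Nat.card (E p) : ℝ) / (p : ℝ) ^ (2 * Fintype.card ι)) ≤
        ∏ p ∈ W, Real.exp (-(c * (1 / p))) := by
      refine Finset.prod_le_prod (fun p hp => ?_) fun p hp => ?_
      · have hpp := hWp p hp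
        have hp0 : (0 : ℝ) < p := by exact_mod_cast hpp.pos
        rw [sub_nonneg, div_le_one (by positivity)]
        have inst : Fintype (ZMod p) := @ZMod.fintype p ⟨hpp.ne_zero⟩
        have h2 : Nat.card (E p) ≤ Nat.card (ι → ZMod p × ZMod p) :=
          Nat.card_le_card_of_injective _ Subtype.val_injective
        have h3 : Nat.card (ι → ZMod p × ZMod p) = p ^ (2 * Fintype.card ι) := by
          rw [Nat.card_eq_fintype_card, Fintype.card_fun, Fintype.card_prod]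
          have : Fintype.card (ZMod p) = p := by
            have := @ZMod.card p inst
            exact this
          rw [this, ← sq, ← pow_mul]
        rw [h3] at h2
        exact_mod_cast h2
      · have h2 := hE p (hWp p hp) (hWp2 p hp)
        have h3 := Real.one_sub_le_exp_neg (c * (1 / (p : ℝ)))
        have h4 : c * (1 / (p : ℝ)) = c / p := by ring
        linarith
    refine h1.trans ?_
    rw [← Real.exp_sum, Finset.sum_neg_distrib, ← Finset.mul_sum]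
    have h5 : Real.log (A / ε) ≤ c * ∑ p ∈ W, 1 / (p : ℝ) := by
      rw [div_le_iff₀ hc] at hY
      linarith
    calc Real.exp (-(c * ∑ p ∈ W, 1 / (p : ℝ))) ≤ Real.exp (-(Real.log (A / ε))) :=
          Real.exp_le_exp.2 (by linarith)
      _ = ε / A := by
          rw [Real.exp_neg, Real.exp_log (by positivity), inv_div]
  filter_upwards [Filter.eventually_ge_atTop (∏ p ∈ W, p), Filter.eventually_ge_atTop 2] with H hH hH2
  have h1 := count_bad W hWp E hH hH2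
  have h2 : ((qBox ι H).filter (fun θ => ∀ p, p.Prime → P₀ ≤ p → p < Y → res p θ ∉ E p)).card ≤
      ((qBox ι H).filter (fun θ => ∀ p ∈ W, res p θ ∉ E p)).card :=
    card_le_card (monotone_filter_right _ fun θ _ h p hp => h p (hWp p hp) (hWp2 p hp) (hWp3 p hp))
  refine (Nat.cast_le.2 h2).trans (h1.trans ?_)
  refine mul_le_mul_of_nonneg_right ?_ (by positivity)
  calc A * _ ≤ A * (ε / A) := mul_le_mul_of_nonneg_left hprod hApos.le
    _ = ε := by field_simp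

open Classical in
/-- almost all tuples have a prime of each of the three kinds -/
theorem density_three {ι : Type} [Fintype ι] [DecidableEq ι]
    (E : ℕ → ∀ p : ℕ, Set (ι → ZMod p × ZMod p)) (E' : ∀ p : ℕ, Set (ι → ZMod p × ZMod p)) (Q₀ : ℕ)
    (hanti : ∀ X Y p, X ≤ Y → E Y p ⊆ E X p)
    (hE : ∀ X, ∃ c : ℝ, 0 < c ∧ ∃ P₀, ∀ p, p.Prime → P₀ ≤ p →
      c / p ≤ (Nat.card (E X p) : ℝ) / (p : ℝ) ^ (2 * Fintype.card ι))
    (hE' : ∃ c : ℝ, 0 < c ∧ ∃ P₀, ∀ p, p.Prime → P₀ ≤ p →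
      c / p ≤ (Nat.card (E' p) : ℝ) / (p : ℝ) ^ (2 * Fintype.card ι))
    (G : (ι → ℚ) → Prop)
    (hG : ∀ (θ : ι → ℚ) (p q l : ℕ), p.Prime → q.Prime → l.Prime → Q₀ ≤ p → Q₀ ≤ q → Q₀ ≤ l →
      res p θ ∈ E 0 p → res q θ ∈ E (4 * p) q → res l θ ∈ E' l → G θ) :
    Filter.Tendsto (fun H : ℕ => (((qBox ι H).filter G).card : ℝ) / ((qBox ι H).card : ℝ))
      Filter.atTop (nhds 1) := by
  refine tendsto_one (τ := Unit) (fun _ θ => ¬ G θ) G (fun θ h => not_not.1 (h ())) ?_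
  intro _ ε hε
  have hε3 : 0 < ε / 3 := by positivity
  -- the first prime
  obtain ⟨c0, hc0, P0, hP0⟩ := hE 0
  obtain ⟨Y0, hY0⟩ := density_window (E 0) hc0 (max P0 Q₀)
    (fun p hp h => hP0 p hp ((le_max_left _ _).trans h)) hε3
  -- the second prime
  obtain ⟨c1, hc1, P1, hP1⟩ := hE (4 * Y0)
  obtain ⟨Y1, hY1⟩ := density_window (E (4 * Y0)) hc1 (max P1 Q₀)
    (fun p hp h => hP1 p hp ((le_max_left _ _).trans h)) hε3
  -- the third prime
  obtain ⟨c2, hc2, P2, hP2⟩ := hE'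
  obtain ⟨Y2, hY2⟩ := density_window E' hc2 (max P2 Q₀)
    (fun p hp h => hP2 p hp ((le_max_left _ _).trans h)) hε3
  filter_upwards [hY0, hY1, hY2] with H h0 h1 h2
  have hsub : (qBox ι H).filter (fun θ => ¬ G θ) ⊆
      ((qBox ι H).filter (fun θ => ∀ p, p.Prime → max P0 Q₀ ≤ p → p < Y0 → res p θ ∉ E 0 p) ∪
      (qBox ι H).filter (fun θ => ∀ p, p.Prime → max P1 Q₀ ≤ p → p < Y1 → res p θ ∉ E (4 * Y0) p)) ∪
      (qBox ι H).filter (fun θ => ∀ p, p.Prime → max P2 Q₀ ≤ p → p < Y2 → res p θ ∉ E' p) := by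
    intro θ hθ
    rw [mem_filter] at hθ
    rw [mem_union, mem_union, mem_filter, mem_filter, mem_filter]
    by_contra hcon
    push Not at hcon
    obtain ⟨⟨k0, k1⟩, k2⟩ := hcon
    obtain ⟨p, hp, hp1, hp2, hp3⟩ := k0 hθ.1
    obtain ⟨q, hq, hq1, hq2, hq3⟩ := k1 hθ.1
    obtain ⟨l, hl, hl1, hl2, hl3⟩ := k2 hθ.1
    exact hθ.2 (hG θ p q l hp hq hl ((le_max_right _ _).trans hp1) ((le_max_right _ _).trans hq1)
      ((le_max_right _ _).trans hl1) hp3 (hanti (4 * p) (4 * Y0) q (by omega) hq3) hl3)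
  have h3 := (card_le_card hsub).trans ((card_union_le _ _).trans
    (Nat.add_le_add_right (card_union_le _ _) _))
  have h4 : (((qBox ι H).filter (fun θ => ¬ G θ)).card : ℝ) ≤
      (((qBox ι H).filter (fun θ => ∀ p, p.Prime → max P0 Q₀ ≤ p → p < Y0 → res p θ ∉ E 0 p)).card : ℝ) +
      (((qBox ι H).filter (fun θ => ∀ p, p.Prime → max P1 Q₀ ≤ p → p < Y1 →
        res p θ ∉ E (4 * Y0) p)).card : ℝ) +
      (((qBox ι H).filter (fun θ => ∀ p, p.Prime → max P2 Q₀ ≤ p → p < Y2 → res p θ ∉ E' p)).card : ℝ) := by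
    exact_mod_cast h3
  have h5 := h4.trans (add_le_add (add_le_add h0 h1) h2)
  have h6 : ε / 3 * ((qBox ι H).card : ℝ) + ε / 3 * ((qBox ι H).card : ℝ) +
      ε / 3 * ((qBox ι H).card : ℝ) = ε * ((qBox ι H).card : ℝ) := by ring
  rw [h6] at h5
  refine le_trans (le_of_eq ?_) h5
  congr!

end Pool.Agent.MX
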