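import Pool.Agent.MX.RowF
import Pool.Agent.MX.RowG
import Pool.Agent.MX.RowH
import Pool.Agent.MX.RowI3
import Pool.Agent.MX.RowJ
import Pool.Agent.II.Final9

/-! # Random intersections: assembly -/

open Finset Pool.Agent.Helper11.ZP Pool.Agent.Helper20.ZT Pool.Agent.II

namespace Pool.Agent.MX

variable {D : ℕ} {δ : Fin 3 → ℕ} {v : AbsoluteValue ℂ ℝ} {p : ℕ}

lemma goodRes_anti {X Y : ℕ} (h : X ≤ Y) : GoodRes v Y p ⊆ GoodRes v X p := by
  rintro r ⟨t, x₀, hc, ht, hB⟩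
  exact ⟨t, x₀, hc, ht, fun B hB1 hB2 => hB B (by have : (X : ℤ) ≤ Y := by exact_mod_cast h
                                                  omega) hB2⟩

lemma E1_mono {R R' : Set (ZMod p)} (h : R ⊆ R') : E1 D δ p R ⊆ E1 D δ p R' := by
  rintro x ⟨h1, h2, h3, h4, h5⟩
  refine ⟨h1, h2, h3, h4, fun k => ?_⟩
  obtain ⟨s, hs, hs1⟩ := h5 k
  exact ⟨s, fun l => h (hs l), hs1⟩

open Classical in
/-- **almost all intersections of a surface of degree `≤ D` and a surface of multidegree `≤ δ` have no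
unlikely intersections** -/
theorem main (D : ℕ) (δ : Fin 3 → ℕ) :
    Filter.Tendsto (fun H : ℕ => (((qBox (Idx D δ) H).filter fun θ => NoUnlikely 2 (curve θ)).card : ℝ) /
      ((qBox (Idx D δ) H).card : ℝ)) Filter.atTop (nhds 1) := by
  obtain ⟨Q₀, vv, h5, hv⟩ := exists_absvs ∅
  obtain ⟨c₁, hc₁, P₁, hE₁⟩ := card_E1 D δ
  refine density_three (E := fun X p => E1 D δ p (GoodRes (vv p) X p)) (E' := fun p => E2 D δ p) Q₀
    (fun X Y p h => E1_mono (goodRes_anti h)) (fun X => ?_) (card_E2 D δ)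
    (G := fun θ => NoUnlikely 2 (curve θ)) (fun θ p q l hp hq hl hpQ hqQ hlQ h1 h2 h3 => ?_)
  · obtain ⟨P₂, hP₂⟩ := half_good X
    refine ⟨c₁, hc₁, max P₁ (max P₂ Q₀), fun p hp hpP => hE₁ p hp ((le_max_left _ _).trans hpP) _ ?_⟩
    have h1 : P₂ ≤ p := (le_max_left _ _).trans ((le_max_right _ _).trans hpP)
    have h2 : Q₀ ≤ p := (le_max_right _ _).trans ((le_max_right _ _).trans hpP)
    obtain ⟨h3, h4, -⟩ := hv p hp h2
    exact hP₂ (vv p) p h3 hp (h5.trans h2) h4 h1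
  · refine noUnlikely_of_r fun S hS => ?_
    obtain ⟨a1, a2, -⟩ := hv p hp hpQ
    obtain ⟨b1, b2, -⟩ := hv q hq hqQ
    obtain ⟨c1, c2, -⟩ := hv l hl hlQ
    exact local_excl a1 hp (h5.trans hpQ) a2 b1 hq (h5.trans hqQ) b2 c1 hl c2 le_rfl h1 h2 h3 S (by omega)

end Pool.Agent.MX
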