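import Pool.Agent.MX.Defs
import Pool.Agent.II.Row1c
import Pool.Agent.II.Row6

/-! # Row A: special data at a place -/

open UpperHalfPlane Pool.Agent.Helper11.ZP Pool.Agent.Helper20.ZT Pool.Agent.II

namespace Pool.Agent.MX

variable {v : AbsoluteValue ℂ ℝ} {p : ℕ}

/-- coordinates outside of the classes are special -/
theorem special_coord {n : ℕ} {S : SpecialData n} {x : Fin n → ℂ} (hx : x ∈ S.carrier) {i : Fin n}
    (hi : S.cls i = none) : IsSpecialPoint (x i) := by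
  rw [hx.1 i hi]
  exact S.hc i hi

theorem special_le (hv : IsNonarchimedean v) {c : ℂ} (hc : IsSpecialPoint c) : v c ≤ 1 :=
  II9.v_isIntegral hv hc.isIntegral

/-- integrality is the same in a class -/
theorem class_le (hv : IsNonarchimedean v) {n : ℕ} {S : SpecialData n} {x : Fin n → ℂ}
    (hx : x ∈ S.carrier) {i j : Fin n} {s : Fin S.r} (hi : S.cls i = some s) (hj : S.cls j = some s)
    (h : v (x i) ≤ 1) : v (x j) ≤ 1 := by
  obtain ⟨τ, hτ⟩ := hx.2 s
  obtain ⟨τ₁, e₁, f₁⟩ := hτ i hi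
  obtain ⟨τ₂, e₂, f₂⟩ := hτ j hj
  have h1 : Mov (S.g i) τ τ₁ := e₁
  have h2 : Mov (S.g j) τ τ₂ := e₂
  have h3 : Mov (S.g j * (S.g i).adjugate) τ₁ τ₂ := mov_mul (mov_adj (S.hg i).ne' h1) h2
  have h4 : 0 < (S.g j * (S.g i).adjugate).det := by
    rw [Matrix.det_mul, Matrix.det_adjugate]
    simpa using mul_pos (S.hg j) (S.hg i)
  rw [f₁] at h
  rw [f₂]
  exact integral_of_mov hv h4 h3 h

end Pool.Agent.MX
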