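import Pool.Agent.MX.RowD

/-! # Random intersections: rational numbers at a place -/

open Finset Pool.Agent.Helper11.ZP Pool.Agent.Helper20.ZT Pool.Agent.II

namespace Pool.Agent.MX

variable {v : AbsoluteValue ℂ ℝ} {p : ℕ}

theorem rat_le (hv : IsNonarchimedean v) (hp : p.Prime) (hvp : v (p : ℂ) < 1) {q : ℚ}
    (h : (q.den : ZMod p) ≠ 0) : v (q : ℂ) ≤ 1 := by
  rw [D84.v_rat hv hp hvp h]; exact D84.v_int_le hv _

theorem rat_gt (hv : IsNonarchimedean v) (hp : p.Prime) (hvp : v (p : ℂ) < 1) {q : ℚ}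
    (h1 : (q.num : ZMod p) ≠ 0) (h : (q.den : ZMod p) = 0) : 1 < v (q : ℂ) := by
  have hn : v (q.num : ℂ) = 1 := D84.v_int_unit hv hp hvp h1
  have hd0 : (q.den : ℂ) ≠ 0 := by exact_mod_cast q.den_nz
  have hd : v (q.den : ℂ) < 1 := by
    obtain ⟨k, hk⟩ := (ZMod.natCast_eq_zero_iff _ _).1 h
    rw [hk]; push_cast; rw [map_mul]
    have h2 : v (k : ℂ) ≤ 1 := by simpa using D84.v_int_le hv (k : ℤ)
    exact lt_of_le_of_lt (mul_le_of_le_one_right (v.nonneg _) h2) hvp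
  have h0 : (q : ℂ) = (q.num : ℂ) / (q.den : ℂ) := by
    exact_mod_cast congrArg (fun z : ℚ => (z : ℂ)) (Rat.num_div_den q).symm
  rw [h0, map_div₀, hn]
  exact one_lt_one_div (v.pos hd0) hd

/-- a rational number is near each integer in its residue class -/
theorem rat_near (hv : IsNonarchimedean v) (hp : p.Prime) (hvp : v (p : ℂ) < 1) {q : ℚ}
    (h : (q.den : ZMod p) ≠ 0) {m : ℤ} (hm : (m : ZMod p) = (q.num : ZMod p) * (q.den : ZMod p)⁻¹) :
    v ((q : ℂ) - m) < 1 := D84.rat_near hv hp hvp h hm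

/-- units -/
theorem rat_unit (hv : IsNonarchimedean v) (hp : p.Prime) (hvp : v (p : ℂ) < 1) {q : ℚ}
    (h : (q.den : ZMod p) ≠ 0) (h1 : (q.num : ZMod p) ≠ 0) : v (q : ℂ) = 1 :=
  D84.rat_unit hv hp hvp h h1

end Pool.Agent.MX
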