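import Pool.Agent.MX.Defs

/-! # The polynomial of given total degree at a place -/

open Finset Pool.Agent.Helper11.ZP Pool.Agent.Helper20.ZT Pool.Agent.II

namespace Pool.Agent.MX

variable {D : ℕ} {v : AbsoluteValue ℂ ℝ}

theorem sum_le9 (hv : IsNonarchimedean v) {ι : Type*} (s : Finset ι) (f : ι → ℂ) {M : ℝ} (hM : 0 ≤ M)
    (h : ∀ e ∈ s, v (f e) ≤ M) : v (∑ e ∈ s, f e) ≤ M := by
  classical
  induction s using Finset.induction_on with
  | empty => simpa using hM
  | insert a s ha ih =>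
    rw [sum_insert ha]
    refine (hv _ _).trans (max_le (h a (mem_insert_self _ _)) (ih fun e he => h e (mem_insert_of_mem he)))

theorem sum_lt9 (hv : IsNonarchimedean v) {ι : Type*} (s : Finset ι) (f : ι → ℂ) {M : ℝ} (hM : 0 < M)
    (h : ∀ e ∈ s, v (f e) < M) : v (∑ e ∈ s, f e) < M := by
  classical
  induction s using Finset.induction_on with
  | empty => simpa using hM
  | insert a s ha ih =>
    rw [sum_insert ha]
    refine (hv _ _).trans_lt (max_lt (h a (mem_insert_self _ _)) (ih fun e he => h e (mem_insert_of_mem he)))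

/-- a pole of the constant coefficient of `f` forces a coordinate which is not integral -/
theorem f_pole (hv : IsNonarchimedean v) {a : DegIdx D → ℂ} (h0 : 1 < v (a (f0 D)))
    (h : ∀ e, e ≠ f0 D → v (a e) ≤ 1) {x : Fin 3 → ℂ} (hx : fEval a x = 0) : ∃ i, 1 < v (x i) := by
  by_contra hcon
  push Not at hcon
  rw [fEval, ← add_sum_erase _ _ (mem_univ (f0 D))] at hx
  have h1 : a (f0 D) * ∏ i, x i ^ ((f0 D).1 i : ℕ) = a (f0 D) := by
    simp [f0]
  rw [h1] at hx
  have h2 : a (f0 D) = -∑ e ∈ univ.erase (f0 D), a e * ∏ i, x i ^ (e.1 i : ℕ) := by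
    linear_combination hx
  have h3 : v (a (f0 D)) ≤ 1 := by
    rw [h2, v.map_neg]
    refine sum_le9 hv _ _ zero_le_one fun e he => ?_
    rw [v.map_mul, map_prod]
    refine mul_le_one₀ (h e (ne_of_mem_erase he)) (prod_nonneg fun i _ => v.nonneg _) ?_
    refine prod_le_one (fun i _ => v.nonneg _) fun i _ => ?_
    rw [map_pow]
    exact pow_le_one₀ (v.nonneg _) (hcon i)
  exact absurd h0 (not_lt.2 h3)

/-- exactly one coordinate is not integral: not on `f = 0` -/
theorem f_one (hv : IsNonarchimedean v) {a : DegIdx D → ℂ} (h : ∀ e, v (a e) ≤ 1) {x : Fin 3 → ℂ}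
    {i : Fin 3} (h1 : v (a (fTop D i)) = 1) (hi : 1 < v (x i)) (hj : ∀ j, j ≠ i → v (x j) ≤ 1) :
    fEval a x ≠ 0 := by
  intro hx
  rw [fEval, ← add_sum_erase _ _ (mem_univ (fTop D i))] at hx
  have hpos : 0 < v (x i) := one_pos.trans hi
  have h2 : ∏ j, x j ^ ((fTop D i).1 j : ℕ) = x i ^ D := by
    rw [prod_eq_single i]
    · simp [fTop]
    · intro j _ hji
      simp [fTop, hji]
    · intro hcon
      exact absurd (mem_univ _) hcon
  have h3 : a (fTop D i) * x i ^ D = -∑ e ∈ univ.erase (fTop D i), a e * ∏ i, x i ^ (e.1 i : ℕ) := by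
    rw [h2] at hx
    linear_combination hx
  have h4 : v (a (fTop D i) * x i ^ D) < v (x i) ^ D := by
    rw [h3, v.map_neg]
    refine sum_lt9 hv _ _ (pow_pos hpos _) fun e he => ?_
    have hlt : (e.1 i : ℕ) < D := by
      by_contra hge
      push Not at hge
      have h5 : (e.1 i : ℕ) = D := le_antisymm (Nat.lt_succ_iff.1 (e.1 i).2) hge
      have h6 : (e.1 i : ℕ) + ∑ j ∈ univ.erase i, (e.1 j : ℕ) ≤ D := by
        rw [add_sum_erase _ (fun j => (e.1 j : ℕ)) (mem_univ i)]
        exact e.2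
      have h7 : ∑ j ∈ univ.erase i, (e.1 j : ℕ) = 0 := by omega
      apply ne_of_mem_erase he
      apply Subtype.ext
      funext j
      by_cases hji : j = i
      · subst hji
        apply Fin.ext
        rw [h5]
        simp [fTop]
      · have h8 := (sum_eq_zero_iff.1 h7) j (mem_erase.2 ⟨hji, mem_univ _⟩)
        apply Fin.ext
        rw [h8]
        simp [fTop, hji]
    rw [v.map_mul, map_prod]
    simp only [map_pow]
    rw [← mul_prod_erase _ _ (mem_univ i)]
    have h9 : ∏ j ∈ univ.erase i, v (x j) ^ (e.1 j : ℕ) ≤ 1 :=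
      prod_le_one (fun j _ => pow_nonneg (v.nonneg _) _) fun j hj' =>
        pow_le_one₀ (v.nonneg _) (hj j (ne_of_mem_erase hj'))
    have h10 : v (x i) ^ (e.1 i : ℕ) * ∏ j ∈ univ.erase i, v (x j) ^ (e.1 j : ℕ) ≤ v (x i) ^ (e.1 i : ℕ) :=
      mul_le_of_le_one_right (pow_nonneg hpos.le _) h9
    calc v (a e) * (v (x i) ^ (e.1 i : ℕ) * ∏ j ∈ univ.erase i, v (x j) ^ (e.1 j : ℕ))
        ≤ 1 * (v (x i) ^ (e.1 i : ℕ) * ∏ j ∈ univ.erase i, v (x j) ^ (e.1 j : ℕ)) :=
          mul_le_mul_of_nonneg_right (h e) (mul_nonneg (pow_nonneg hpos.le _)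
            (prod_nonneg fun j _ => pow_nonneg (v.nonneg _) _))
      _ ≤ v (x i) ^ (e.1 i : ℕ) := by rw [one_mul]; exact h10
      _ < v (x i) ^ D := pow_lt_pow_right₀ hi hlt
  rw [v.map_mul, h1, one_mul, map_pow] at h4
  exact lt_irrefl _ h4

end Pool.Agent.MX
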