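import Pool.Agent.MX.Defs
import Pool.Agent.II.Cont

/-! # Row C2: local analysis of `g` -/

open Finset Pool.Agent.Helper11.ZP Pool.Agent.Helper20.ZT Pool.Agent.II

namespace Pool.Agent.MX

variable {δ : Fin 3 → ℕ} {v : AbsoluteValue ℂ ℝ}

lemma v_sum_lt55 (hv : IsNonarchimedean v) {ι : Type*} (s : Finset ι) (f : ι → ℂ) {B : ℝ} (hB : 0 < B)
    (h : ∀ i ∈ s, v (f i) < B) : v (∑ i ∈ s, f i) < B := by
  classical
  induction s using Finset.induction_on with
  | empty => simpa using hB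
  | insert a s ha ih =>
    rw [Finset.sum_insert ha]
    exact (hv _ _).trans_lt (max_lt (h a (Finset.mem_insert_self a s))
      (ih fun i hi => h i (Finset.mem_insert_of_mem hi)))

/-- the value of a monomial -/
lemma v_term55 (b : BoxIdx δ → ℂ) (x : Fin 3 → ℂ) (e : BoxIdx δ) :
    v (b e * ∏ i, x i ^ (e i : ℕ)) = v (b e) * ∏ i, v (x i) ^ (e i : ℕ) := by
  rw [map_mul, map_prod]
  simp only [map_pow]

theorem g_pole (hv : IsNonarchimedean v) {b : BoxIdx δ → ℂ} (h0 : 1 < v (b fun _ => 0))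
    (h : ∀ e, e ≠ (fun _ => 0) → v (b e) ≤ 1) {x : Fin 3 → ℂ} (hx : gEval b x = 0) :
    ∃ i, 1 < v (x i) := by
  classical
  by_contra hcon
  push Not at hcon
  have h1 : gEval b x = b (fun _ => 0) +
      ∑ e ∈ univ.erase (fun _ => 0), b e * ∏ i, x i ^ (e i : ℕ) := by
    rw [gEval, ← Finset.add_sum_erase univ _ (mem_univ (fun _ => 0 : BoxIdx δ))]
    simp
  rw [h1] at hx
  have h2 : b (fun _ => 0) = -∑ e ∈ univ.erase (fun _ => 0), b e * ∏ i, x i ^ (e i : ℕ) :=
    eq_neg_of_add_eq_zero_left hx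
  have h3 : v (∑ e ∈ univ.erase (fun _ => 0), b e * ∏ i, x i ^ (e i : ℕ)) ≤ 1 := by
    refine Pool.Agent.II9.v_sum_le hv _ _ zero_le_one fun e he => ?_
    rw [v_term55]
    refine mul_le_one₀ (h e (Finset.ne_of_mem_erase he)) (Finset.prod_nonneg fun i _ =>
      pow_nonneg (v.nonneg _) _) (Finset.prod_le_one (fun i _ => pow_nonneg (v.nonneg _) _)
        fun i _ => pow_le_one₀ (v.nonneg _) (hcon i))
  rw [h2, v.map_neg] at h0
  exact absurd h0 (not_lt.mpr h3)

/-- all coordinates are not integral: not on `g = 0` -/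
theorem g_three (hv : IsNonarchimedean v) {b : BoxIdx δ → ℂ} (h : ∀ e, v (b e) ≤ 1) {x : Fin 3 → ℂ}
    (h1 : v (b (gTop δ)) = 1) (hi : ∀ i, 1 < v (x i)) : gEval b x ≠ 0 := by
  classical
  intro hx
  have h2 : gEval b x = b (gTop δ) * ∏ i, x i ^ (gTop δ i : ℕ) +
      ∑ e ∈ univ.erase (gTop δ), b e * ∏ i, x i ^ (e i : ℕ) := by
    rw [gEval, ← Finset.add_sum_erase univ _ (mem_univ (gTop δ))]
  rw [h2] at hx
  have h3 := eq_neg_of_add_eq_zero_left hx
  have hpos : ∀ i, 0 < v (x i) := fun i => zero_lt_one.trans (hi i)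
  have h4 : v (∑ e ∈ univ.erase (gTop δ), b e * ∏ i, x i ^ (e i : ℕ)) <
      ∏ i, v (x i) ^ (gTop δ i : ℕ) := by
    refine v_sum_lt55 hv _ _ (Finset.prod_pos fun i _ => pow_pos (hpos i) _) fun e he => ?_
    rw [v_term55]
    have h5 : ∏ i, v (x i) ^ (e i : ℕ) < ∏ i, v (x i) ^ (gTop δ i : ℕ) := by
      have hne := Finset.ne_of_mem_erase he
      have hex : ∃ i, (e i : ℕ) < (gTop δ i : ℕ) := by
        by_contra hcon
        push Not at hcon
        apply hne
        funext i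
        exact Fin.ext (le_antisymm (Fin.le_last (e i)) (hcon i))
      obtain ⟨i, hi'⟩ := hex
      refine Finset.prod_lt_prod (fun j _ => pow_pos (hpos j) _) (fun j _ => ?_)
        ⟨i, mem_univ i, pow_lt_pow_right₀ (hi i) hi'⟩
      exact pow_le_pow_right₀ (hi j).le (Fin.le_last (e j))
    calc v (b e) * ∏ i, v (x i) ^ (e i : ℕ) ≤ 1 * ∏ i, v (x i) ^ (e i : ℕ) :=
          mul_le_mul_of_nonneg_right (h e) (Finset.prod_nonneg fun i _ => pow_nonneg (v.nonneg _) _)
      _ < _ := by rw [one_mul]; exact h5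
  have h6 := congrArg v h3
  rw [v_term55, h1, one_mul, v.map_neg] at h6
  rw [← h6] at h4
  exact lt_irrefl _ h4

/-- exactly the coordinate `k` is integral: the leading coefficient is small -/
theorem g_two (hv : IsNonarchimedean v) {b : BoxIdx δ → ℂ} (h : ∀ e, v (b e) ≤ 1) {x : Fin 3 → ℂ}
    {k : Fin 3} (hk : v (x k) ≤ 1) (hi : ∀ i, i ≠ k → 1 < v (x i)) (hx : gEval b x = 0) :
    v (∑ e : Fin (δ k + 1), b (gMon δ k e) * x k ^ (e : ℕ)) < 1 := by
  classical
  have hpos : ∀ i, i ≠ k → 0 < v (x i) := fun i h => zero_lt_one.trans (hi i h)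
  have hinj : Function.Injective (gMon δ k) := fun a c hac => by
    have h1 := congrFun hac k
    simpa [gMon] using h1
  set M : ℂ := ∏ i ∈ univ.erase k, x i ^ (δ i : ℕ) with hM
  have hvM : 0 < v M := by
    rw [hM, map_prod]
    refine Finset.prod_pos fun i hi' => ?_
    rw [map_pow]
    exact pow_pos (hpos i (Finset.ne_of_mem_erase hi')) _
  -- the part of the leading monomials
  have h1 : ∑ e ∈ univ.image (gMon δ k), b e * ∏ i, x i ^ (e i : ℕ) =
      M * ∑ e : Fin (δ k + 1), b (gMon δ k e) * x k ^ (e : ℕ) := by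
    rw [Finset.sum_image (fun a _ c _ hac => hinj hac), Finset.mul_sum]
    refine Finset.sum_congr rfl fun e _ => ?_
    rw [← Finset.mul_prod_erase univ _ (mem_univ k)]
    have h2 : ∏ i ∈ univ.erase k, x i ^ (gMon δ k e i : ℕ) = M := by
      refine Finset.prod_congr rfl fun i hi' => ?_
      rw [gMon, Function.update_of_ne (Finset.ne_of_mem_erase hi')]
      rfl
    rw [h2, gMon, Function.update_self]
    ring
  have h2 : gEval b x = ∑ e ∈ univ.image (gMon δ k), b e * ∏ i, x i ^ (e i : ℕ) +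
      ∑ e ∈ (univ.image (gMon δ k))ᶜ, b e * ∏ i, x i ^ (e i : ℕ) := by
    rw [gEval, Finset.sum_add_sum_compl]
  rw [hx, h1] at h2
  have h3 := (eq_neg_of_add_eq_zero_left h2.symm)
  have h4 : v (∑ e ∈ (univ.image (gMon δ k))ᶜ, b e * ∏ i, x i ^ (e i : ℕ)) < v M := by
    refine v_sum_lt55 hv _ _ hvM fun e he => ?_
    rw [v_term55]
    have hex : ∃ i, i ≠ k ∧ (e i : ℕ) < δ i := by
      by_contra hcon
      push Not at hcon
      rw [Finset.mem_compl] at he
      apply he
      rw [Finset.mem_image]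
      refine ⟨e k, mem_univ _, ?_⟩
      funext i
      by_cases hik : i = k
      · subst hik
        rw [gMon, Function.update_self]
      · rw [gMon, Function.update_of_ne hik]
        exact Fin.ext (le_antisymm (hcon i hik) (Fin.le_last (e i)))
    obtain ⟨i, hik, hlt⟩ := hex
    have h5 : ∏ i ∈ univ.erase k, v (x i) ^ (e i : ℕ) < v M := by
      rw [hM, map_prod]
      simp only [map_pow]
      refine Finset.prod_lt_prod (fun j hj => pow_pos (hpos j (Finset.ne_of_mem_erase hj)) _)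
        (fun j hj => ?_) ⟨i, Finset.mem_erase.2 ⟨hik, mem_univ i⟩, pow_lt_pow_right₀ (hi i hik) hlt⟩
      exact pow_le_pow_right₀ (hi j (Finset.ne_of_mem_erase hj)).le (Fin.le_last (e j))
    calc v (b e) * ∏ i, v (x i) ^ (e i : ℕ) ≤ 1 * ∏ i, v (x i) ^ (e i : ℕ) :=
          mul_le_mul_of_nonneg_right (h e) (Finset.prod_nonneg fun i _ => pow_nonneg (v.nonneg _) _)
      _ = v (x k) ^ (e k : ℕ) * ∏ i ∈ univ.erase k, v (x i) ^ (e i : ℕ) := by
          rw [one_mul, Finset.mul_prod_erase univ (fun i => v (x i) ^ (e i : ℕ)) (mem_univ k)]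
      _ ≤ 1 * ∏ i ∈ univ.erase k, v (x i) ^ (e i : ℕ) :=
          mul_le_mul_of_nonneg_right (pow_le_one₀ (v.nonneg _) hk)
            (Finset.prod_nonneg fun i _ => pow_nonneg (v.nonneg _) _)
      _ < v M := by rw [one_mul]; exact h5
  have h6 := congrArg v h3
  rw [map_mul, v.map_neg] at h6
  rw [← h6] at h4
  by_contra hcon
  push Not at hcon
  have h7 : v M * 1 ≤ v M * v (∑ e : Fin (δ k + 1), b (gMon δ k e) * x k ^ (e : ℕ)) :=
    mul_le_mul_of_nonneg_left hcon hvM.le
  rw [mul_one] at h7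
  exact absurd h4 (not_lt.mpr h7)

end Pool.Agent.MX
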