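import Pool.Agent.MX.Defs

/-! # Random intersections: a zero modulo the maximal ideal of a split polynomial -/

open Finset Pool.Agent.Helper11.ZP Pool.Agent.Helper20.ZT Pool.Agent.II

namespace Pool.Agent.MX.D84


variable {v : AbsoluteValue ℂ ℝ} {p : ℕ}

/-- integers are integral -/
theorem v_int_le (hv : IsNonarchimedean v) (n : ℤ) : v (n : ℂ) ≤ 1 := by
  have hnat : ∀ m : ℕ, v (m : ℂ) ≤ 1 := by
    intro m
    induction m with
    | zero => simp
    | succ m ih =>
      push_cast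
      exact (hv _ _).trans (max_le ih (by simp))
  obtain ⟨m, rfl | rfl⟩ := n.eq_nat_or_neg
  · simpa using hnat m
  · push_cast
    rw [map_neg_eq_map]; exact hnat m

/-- integers prime to `p` are units -/
theorem v_int_unit (hv : IsNonarchimedean v) (hp : p.Prime) (hvp : v (p : ℂ) < 1) {n : ℤ}
    (h : (n : ZMod p) ≠ 0) : v (n : ℂ) = 1 := by
  refine le_antisymm (v_int_le hv n) (not_lt.1 fun hlt => ?_)
  have hcop : IsCoprime n (p : ℤ) := by
    have h1 : ¬ (p : ℤ) ∣ n := fun hd => h ((ZMod.intCast_zmod_eq_zero_iff_dvd n p).2 hd)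
    exact ((Nat.prime_iff_prime_int.1 hp).coprime_iff_not_dvd.2 h1).symm
  obtain ⟨a, b, hab⟩ := hcop
  have h1 : (1 : ℂ) = (a : ℂ) * n + b * (p : ℂ) := by
    have := congrArg (fun z : ℤ => (z : ℂ)) hab
    push_cast at this; exact this.symm
  have h2 : v (1 : ℂ) < 1 := by
    rw [h1]
    refine lt_of_le_of_lt (hv _ _) (max_lt ?_ ?_)
    · rw [map_mul]; exact lt_of_le_of_lt (mul_le_of_le_one_left (v.nonneg _) (v_int_le hv a)) hlt
    · rw [map_mul]; exact lt_of_le_of_lt (mul_le_of_le_one_left (v.nonneg _) (v_int_le hv b)) hvp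
  simp at h2

/-- the value of a rational number with denominator prime to `p` -/
theorem v_rat (hv : IsNonarchimedean v) (hp : p.Prime) (hvp : v (p : ℂ) < 1) {q : ℚ}
    (h : (q.den : ZMod p) ≠ 0) : v (q : ℂ) = v (q.num : ℂ) := by
  have h1 : (q : ℂ) = (q.num : ℂ) / (q.den : ℂ) := by
    exact_mod_cast congrArg (fun z : ℚ => (z : ℂ)) (Rat.num_div_den q).symm
  have h2 : v ((q.den : ℤ) : ℂ) = 1 := v_int_unit hv hp hvp (by simpa using h)
  rw [h1, map_div₀]
  rw [Int.cast_natCast] at h2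
  rw [h2, div_one]

theorem rat_unit (hv : IsNonarchimedean v) (hp : p.Prime) (hvp : v (p : ℂ) < 1) {q : ℚ}
    (h : (q.den : ZMod p) ≠ 0) (h1 : (q.num : ZMod p) ≠ 0) : v (q : ℂ) = 1 := by
  rw [v_rat hv hp hvp h]; exact v_int_unit hv hp hvp h1

theorem rat_near (hv : IsNonarchimedean v) (hp : p.Prime) (hvp : v (p : ℂ) < 1) {q : ℚ}
    (h : (q.den : ZMod p) ≠ 0) {m : ℤ} (hm : (m : ZMod p) = (q.num : ZMod p) * (q.den : ZMod p)⁻¹) :
    v ((q : ℂ) - m) < 1 := by
  have : Fact p.Prime := ⟨hp⟩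
  have hd : (q.den : ℂ) ≠ 0 := by exact_mod_cast q.den_nz
  have h1 : (q : ℂ) - m = ((q.num - m * q.den : ℤ) : ℂ) / (q.den : ℂ) := by
    have h0 : (q : ℂ) = (q.num : ℂ) / (q.den : ℂ) := by
      exact_mod_cast congrArg (fun z : ℚ => (z : ℂ)) (Rat.num_div_den q).symm
    rw [h0]; push_cast; field_simp
  have h2 : v ((q.den : ℤ) : ℂ) = 1 := v_int_unit hv hp hvp (by simpa using h)
  have h3 : (p : ℤ) ∣ q.num - m * q.den := by
    rw [← ZMod.intCast_zmod_eq_zero_iff_dvd]
    push_cast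
    rw [hm, mul_assoc, inv_mul_cancel₀ h, mul_one, sub_self]
  obtain ⟨k, hk⟩ := h3
  rw [Int.cast_natCast] at h2
  rw [h1, map_div₀, h2, div_one, hk]
  push_cast
  rw [map_mul]
  exact lt_of_le_of_lt (mul_le_of_le_one_right (v.nonneg _) (v_int_le hv k)) hvp

end Pool.Agent.MX.D84

namespace Pool.Agent.MX

variable {D : ℕ} {δ : Fin 3 → ℕ} {v : AbsoluteValue ℂ ℝ} {p : ℕ}

/-- a sum of small numbers is small -/
theorem sum_small84 (hv : IsNonarchimedean v) {ι : Type*} (T : Finset ι) {f : ι → ℂ}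
    (h : ∀ i ∈ T, v (f i) < 1) : v (∑ i ∈ T, f i) < 1 := by
  classical
  induction T using Finset.induction_on with
  | empty => simp
  | insert a T ha ih =>
    rw [Finset.sum_insert ha]
    refine lt_of_le_of_lt (hv _ _) (max_lt (h a (Finset.mem_insert_self a T)) ?_)
    exact ih fun i hi => h i (Finset.mem_insert_of_mem hi)

/-- a zero modulo the maximal ideal of a split polynomial is near one of the roots -/
theorem near_split (hv : IsNonarchimedean v) (hp : p.Prime) (hvp : v (p : ℂ) < 1) {m : ℕ}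
    {b : Fin (m + 1) → ℚ} (hb : ∀ e, ((b e).den : ZMod p) ≠ 0) {β : ZMod p} (hβ : β ≠ 0)
    {s : Fin m → ZMod p}
    (hs : ∀ e : Fin (m + 1), ((b e).num : ZMod p) * ((b e).den : ZMod p)⁻¹ =
      β * (∏ l, (Polynomial.X - Polynomial.C (s l))).coeff e)
    {c : ℂ} (hc : v c ≤ 1) (h : v (∑ e : Fin (m + 1), (b e : ℂ) * c ^ (e : ℕ)) < 1) :
    ∃ l, v (c - ((s l).val : ℤ)) < 1 := by
  have : Fact p.Prime := ⟨hp⟩
  let S : Fin m → ℤ := fun l => ((s l).val : ℤ)
  let B : ℤ := (β.val : ℤ)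
  let F : Polynomial ℤ := ∏ l, (Polynomial.X - Polynomial.C (S l))
  have hSs : ∀ l, ((S l : ℤ) : ZMod p) = s l := fun l => by
    simp only [S, Int.cast_natCast]; exact ZMod.natCast_zmod_val _
  have hBβ : ((B : ℤ) : ZMod p) = β := by
    simp only [B, Int.cast_natCast]; exact ZMod.natCast_zmod_val _
  have hF : F.map (Int.castRingHom (ZMod p)) = ∏ l, (Polynomial.X - Polynomial.C (s l)) := by
    rw [show F = ∏ l, (Polynomial.X - Polynomial.C (S l)) from rfl, Polynomial.map_prod]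
    refine Finset.prod_congr rfl fun l _ => ?_
    rw [Polynomial.map_sub, Polynomial.map_X, Polynomial.map_C, eq_intCast, hSs]
  have hcoef : ∀ e : ℕ, ((F.coeff e : ℤ) : ZMod p) =
      (∏ l, (Polynomial.X - Polynomial.C (s l))).coeff e := fun e => by
    rw [← hF, Polynomial.coeff_map, eq_intCast]
  have hnear : ∀ e : Fin (m + 1), v ((b e : ℂ) - ((B * F.coeff e : ℤ) : ℂ)) < 1 := fun e =>
    D84.rat_near hv hp hvp (hb e) (by rw [hs e, ← hcoef, Int.cast_mul, hBβ])
  have hcp : ∀ e : ℕ, v (c ^ e) ≤ 1 := fun e => by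
    rw [map_pow]; exact pow_le_one₀ (v.nonneg c) hc
  have hdeg : F.natDegree < m + 1 := by
    have : F.natDegree = m := by
      rw [show F = ∏ l, (Polynomial.X - Polynomial.C (S l)) from rfl,
        Polynomial.natDegree_prod_of_monic _ _ fun l _ => Polynomial.monic_X_sub_C _]
      simp only [Polynomial.natDegree_X_sub_C, Finset.sum_const, Finset.card_univ, Fintype.card_fin,
        smul_eq_mul, mul_one]
    omega
  have heval : ((B : ℤ) : ℂ) * ∏ l, (c - (S l : ℂ)) =
      ∑ e : Fin (m + 1), ((B * F.coeff e : ℤ) : ℂ) * c ^ (e : ℕ) := by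
    have h1 : ∏ l, (c - (S l : ℂ)) = (F.map (Int.castRingHom ℂ)).eval c := by
      rw [show F = ∏ l, (Polynomial.X - Polynomial.C (S l)) from rfl, Polynomial.map_prod,
        Polynomial.eval_prod]
      refine Finset.prod_congr rfl fun l _ => ?_
      rw [Polynomial.map_sub, Polynomial.map_X, Polynomial.map_C, eq_intCast,
        Polynomial.eval_sub, Polynomial.eval_X, Polynomial.eval_C]
    have h2 : (F.map (Int.castRingHom ℂ)).natDegree < m + 1 :=
      lt_of_le_of_lt Polynomial.natDegree_map_le hdeg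
    rw [h1, Polynomial.eval_eq_sum_range' h2, Finset.sum_range, Finset.mul_sum]
    refine Finset.sum_congr rfl fun e _ => ?_
    rw [Polynomial.coeff_map, eq_intCast]; push_cast; ring
  have hsmall : v (((B : ℤ) : ℂ) * ∏ l, (c - (S l : ℂ))) < 1 := by
    have h1 : ((B : ℤ) : ℂ) * ∏ l, (c - (S l : ℂ)) =
        ∑ e : Fin (m + 1), (b e : ℂ) * c ^ (e : ℕ) +
          -∑ e : Fin (m + 1), ((b e : ℂ) - ((B * F.coeff e : ℤ) : ℂ)) * c ^ (e : ℕ) := by
      rw [heval, ← sub_eq_add_neg, ← Finset.sum_sub_distrib]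
      refine Finset.sum_congr rfl fun e _ => by ring
    rw [h1]
    refine lt_of_le_of_lt (hv _ _) (max_lt h ?_)
    rw [map_neg_eq_map]
    refine sum_small84 hv _ fun e _ => ?_
    rw [map_mul]
    exact lt_of_le_of_lt (mul_le_of_le_one_right (v.nonneg _) (hcp e)) (hnear e)
  have hB1 : v ((B : ℤ) : ℂ) = 1 := by
    have h1 := D84.rat_unit (q := (B : ℚ)) hv hp hvp (by simp) (by
      simpa using (by rw [hBβ]; exact hβ : ((B : ℤ) : ZMod p) ≠ 0))
    simpa using h1
  rw [map_mul, hB1, one_mul, map_prod] at hsmall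
  by_contra hcon
  push Not at hcon
  have : (1 : ℝ) ≤ ∏ l, v (c - (S l : ℂ)) := by
    calc (1 : ℝ) = ∏ _l : Fin m, (1 : ℝ) := by simp
      _ ≤ ∏ l, v (c - (S l : ℂ)) := Finset.prod_le_prod (fun _ _ => zero_le_one) fun l _ => hcon l
  exact absurd hsmall (not_lt.2 this)

end Pool.Agent.MX
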