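import Pool.Agent.MX.Defs
import Pool.Agent.II.Row9c

/-! # Row E: one special point near good residues at two primes -/

open Finset Pool.Agent.Helper11.ZP Pool.Agent.Helper20.ZT Pool.Agent.II

namespace Pool.Agent.MX

variable {v : AbsoluteValue ℂ ℝ} {p : ℕ}

/-- the discriminant of a centre is negative -/
lemma center_neg (hp : p.Prime) {a t : ℤ} {x₀ : ℂ} (h : Center v p a t x₀) : t ^ 2 - 4 * (p : ℤ) < 0 := by
  obtain ⟨A, τ, hd, ht, hM, -⟩ := h.ex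
  have h1 := dsc_neg (Pool.Agent.II51.nonscalar_of_det_prime hp hd hM) hM
  rw [dsc, ht, hd] at h1
  exact h1

/-- the discriminants of the centres near one special point have the same field -/
lemma cm_two_ints {w : AbsoluteValue ℂ ℝ} {q : ℕ} (hv : IsNonarchimedean v) (hp : p.Prime)
    (h5 : 5 ≤ p) (hvp : v (p : ℂ) < 1) (hw : IsNonarchimedean w) (hq : q.Prime) (h5q : 5 ≤ q)
    (hwq : w (q : ℂ) < 1) {a b t s : ℤ} {x₀ y₀ : ℂ} (hx : Center v p a t x₀)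
    (hy : Center w q b s y₀) (ht : t ≠ 0) (hs : s ≠ 0) {c : ℂ} (hc : IsSpecialPoint c)
    (h1 : v (c - a) < 1) (h2 : w (c - b) < 1) :
    IsSquare ((t ^ 2 - 4 * p) * (s ^ 2 - 4 * q)) := by
  have hc' := hc
  obtain ⟨τ, _, _, _, _, _, hj⟩ := hc
  subst hj
  obtain ⟨B, hB, hBf⟩ := (special_iff τ).mp hc'
  exact sq_cancel (dsc_neg hB hBf).ne (cm_lemma hv hp h5 hvp hx ht hB hBf h1)
    (cm_lemma hw hq h5q hwq hy hs hB hBf h2)

/-- **one special point near good residues at two primes** is impossible -/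
theorem cm_excl {w : AbsoluteValue ℂ ℝ} {q : ℕ} (hv : IsNonarchimedean v) (hp : p.Prime) (h5 : 5 ≤ p)
    (hvp : v (p : ℂ) < 1) (hw : IsNonarchimedean w) (hq : q.Prime) (h5q : 5 ≤ q) (hwq : w (q : ℂ) < 1)
    {X : ℕ} (hX : 4 * p ≤ X) {r : ZMod p} (hr : r ∈ GoodRes v 0 p) {s : ZMod q} (hs : s ∈ GoodRes w X q)
    {c : ℂ} (hc : IsSpecialPoint c) (h1 : v (c - (r.val : ℤ)) < 1) (h2 : w (c - (s.val : ℤ)) < 1) :
    False := by
  obtain ⟨t, x₀, hx, ht, -⟩ := hr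
  obtain ⟨t', y₀, hy, ht', hns⟩ := hs
  refine hns (t ^ 2 - 4 * p) ?_ (center_neg hp hx)
    (cm_two_ints hv hp h5 hvp hw hq h5q hwq hx hy ht ht' hc h1 h2)
  have h3 : (4 * (p : ℤ)) ≤ (X : ℤ) := by exact_mod_cast hX
  nlinarith [sq_nonneg t]

end Pool.Agent.MX
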