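import Pool.Agent.MX.RowA
import Pool.Agent.MX.RowB
import Pool.Agent.MX.RowC1
import Pool.Agent.MX.RowC2
import Pool.Agent.MX.RowD
import Pool.Agent.MX.RowE

/-! # Random intersections: the local theorem

If the reductions of the coefficients lie in the first event at the primes `p` and `q` and in the
second event at `l`, then the curve is disjoint from all special subvarieties with at most one class. -/

open Finset Pool.Agent.Helper11.ZP Pool.Agent.Helper20.ZT Pool.Agent.II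

namespace Pool.Agent.MX

variable {D : ℕ} {δ : Fin 3 → ℕ} {v : AbsoluteValue ℂ ℝ} {p : ℕ}

private lemma fin3_cases (P : Fin 3 → Prop) : (∀ i, P i) ∨ (∃ k, ¬ P k ∧ ∀ i, i ≠ k → P i) ∨
    (∃ i, P i ∧ ∀ j, j ≠ i → ¬ P j) ∨ ∀ i, ¬ P i := by
  by_cases h0 : P 0 <;> by_cases h1 : P 1 <;> by_cases h2 : P 2
  · left; intro i; fin_cases i <;> assumption
  · right; left; exact ⟨2, h2, fun i hi => by fin_cases i <;> first | assumption | exact absurd rfl hi⟩
  · right; left; exact ⟨1, h1, fun i hi => by fin_cases i <;> first | assumption | exact absurd rfl hi⟩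
  · right; right; left; exact ⟨0, h0, fun i hi => by fin_cases i <;> first | assumption | exact absurd rfl hi⟩
  · right; left; exact ⟨0, h0, fun i hi => by fin_cases i <;> first | assumption | exact absurd rfl hi⟩
  · right; right; left; exact ⟨1, h1, fun i hi => by fin_cases i <;> first | assumption | exact absurd rfl hi⟩
  · right; right; left; exact ⟨2, h2, fun i hi => by fin_cases i <;> first | assumption | exact absurd rfl hi⟩
  · right; right; right; intro i; fin_cases i <;> assumption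

/-- either all coordinates are integral, or exactly the coordinates of the class are not integral -/
lemma dich (hv : IsNonarchimedean v) {S : SpecialData 3} (hS : S.r ≤ 1) {x : Fin 3 → ℂ}
    (hx : x ∈ S.carrier) {i₀ : Fin 3} (hi₀ : 1 < v (x i₀)) :
    (∀ i, S.cls i = none → v (x i) ≤ 1) ∧ ∀ i, S.cls i ≠ none → 1 < v (x i) := by
  refine ⟨fun i hi => special_le hv (special_coord hx hi), fun i hi => ?_⟩
  by_contra hcon
  obtain ⟨s, hs⟩ := Option.ne_none_iff_exists'.1 hi
  have h0 : S.cls i₀ ≠ none := fun h => absurd (special_le hv (special_coord hx h)) (not_le.2 hi₀)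
  obtain ⟨s₀, hs₀⟩ := Option.ne_none_iff_exists'.1 h0
  have : s = s₀ := by
    have h1 := s.2
    have h2 := s₀.2
    exact Fin.ext (by omega)
  subst this
  exact absurd (class_le hv hx hs hs₀ (not_lt.1 hcon)) (not_le.2 hi₀)

lemma den_of_rr {q : ℚ} (h : rr ((q.num : ZMod p), (q.den : ZMod p)) ≠ 0) :
    (q.num : ZMod p) ≠ 0 := by
  intro h0
  exact h (by simp [rr, h0])

/-- the special coordinate is near a good residue -/
lemma near_good (hv : IsNonarchimedean v) (hp : p.Prime) (hvp : v (p : ℂ) < 1) {R : Set (ZMod p)}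
    {θ : Idx D δ → ℚ} (h1 : res p θ ∈ E1 D δ p R) {x : Fin 3 → ℂ} (hx : x ∈ curve θ) {k : Fin 3}
    (hk : v (x k) ≤ 1) (hi : ∀ i, i ≠ k → 1 < v (x i)) :
    ∃ r ∈ R, v (x k - (r.val : ℤ)) < 1 := by
  obtain ⟨-, -, h2, h3, h4⟩ := h1
  obtain ⟨s, hsR, hs⟩ := h4 k
  have hden : ∀ e : BoxIdx δ, ((θ (.inr e)).den : ZMod p) ≠ 0 := fun e => h2 (.inr e) (by simp)
  have hb : ∀ e : BoxIdx δ, v ((θ (.inr e) : ℚ) : ℂ) ≤ 1 := fun e => rat_le hv hp hvp (hden e)
  have h5 := g_two hv (b := fun e => ((θ (.inr e) : ℚ) : ℂ)) hb hk hi hx.2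
  obtain ⟨l, hl⟩ := near_split hv hp hvp (b := fun e => θ (.inr (gMon δ k e))) (fun e => hden _) h3 hs hk h5
  exact ⟨s l, hsR l, hl⟩

/-- the points of the curve on special subvarieties with at most one class -/
theorem local_excl {w u : AbsoluteValue ℂ ℝ} {q l : ℕ} (hv : IsNonarchimedean v) (hp : p.Prime)
    (h5 : 5 ≤ p) (hvp : v (p : ℂ) < 1) (hw : IsNonarchimedean w) (hq : q.Prime) (h5q : 5 ≤ q)
    (hwq : w (q : ℂ) < 1) (hu : IsNonarchimedean u) (hl : l.Prime) (hul : u (l : ℂ) < 1) {X : ℕ}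
    (hX : 4 * p ≤ X) {θ : Idx D δ → ℚ} (h1 : res p θ ∈ E1 D δ p (GoodRes v 0 p))
    (h2 : res q θ ∈ E1 D δ q (GoodRes w X q)) (h3 : res l θ ∈ E2 D δ l) (S : SpecialData 3)
    (hS : S.r ≤ 1) : Disjoint (curve θ) S.carrier := by
  rw [Set.disjoint_left]
  intro x hx hxS
  -- the pole of `f` at `v`, at `w`, and the pole of `g` at `u`
  have hfv : ∃ i, 1 < v (x i) := by
    refine f_pole hv (a := fun e => ((θ (.inl e) : ℚ) : ℂ)) (rat_gt hv hp hvp h1.1 h1.2.1) (fun e he => ?_) hx.1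
    exact rat_le hv hp hvp (h1.2.2.1 (.inl e) (fun h => he (Sum.inl_injective h)))
  have hfw : ∃ i, 1 < w (x i) := by
    refine f_pole hw (a := fun e => ((θ (.inl e) : ℚ) : ℂ)) (rat_gt hw hq hwq h2.1 h2.2.1) (fun e he => ?_) hx.1
    exact rat_le hw hq hwq (h2.2.2.1 (.inl e) (fun h => he (Sum.inl_injective h)))
  have hgu : ∃ i, 1 < u (x i) := by
    refine g_pole hu (b := fun e => ((θ (.inr e) : ℚ) : ℂ)) (rat_gt hu hl hul h3.1 h3.2.1) (fun e he => ?_) hx.2
    exact rat_le hu hl hul (h3.2.2.1 (.inr e) (fun h => he (Sum.inr_injective h)))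
  obtain ⟨iv, hiv⟩ := hfv
  obtain ⟨iw, hiw⟩ := hfw
  obtain ⟨iu, hiu⟩ := hgu
  have dv := dich hv hS hxS hiv
  have dw := dich hw hS hxS hiw
  have du := dich hu hS hxS hiu
  rcases fin3_cases (fun i => S.cls i ≠ none) with hB | ⟨k, hk, hB⟩ | ⟨i, hi, hB⟩ | hB
  · refine g_three hv (b := fun e => ((θ (.inr e) : ℚ) : ℂ)) (fun e => rat_le hv hp hvp (h1.2.2.1 (.inr e) (by simp)))
      ?_ (fun i => dv.2 i (hB i)) hx.2
    exact rat_unit hv hp hvp (h1.2.2.1 (.inr (gTop δ)) (by simp)) (den_of_rr h1.2.2.2.1)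
  · have hk' : S.cls k = none := not_not.1 hk
    obtain ⟨r, hr, hr1⟩ := near_good hv hp hvp h1 hx (dv.1 k hk') (fun i hi => dv.2 i (hB i hi))
    obtain ⟨s, hs, hs1⟩ := near_good hw hq hwq h2 hx (dw.1 k hk') (fun i hi => dw.2 i (hB i hi))
    exact cm_excl hv hp h5 hvp hw hq h5q hwq hX hr hs (special_coord hxS hk') hr1 hs1
  · refine f_one hu (a := fun e => ((θ (.inl e) : ℚ) : ℂ)) (fun e => rat_le hu hl hul (h3.2.2.1 (.inl e) (by simp)))
      ?_ (du.2 i hi) (fun j hj => du.1 j (not_not.1 (hB j hj))) hx.1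
    exact rat_unit hu hl hul (h3.2.2.1 (.inl (fTop D i)) (by simp)) (den_of_rr (h3.2.2.2 i))
  · exact absurd (dv.1 iv (not_not.1 (hB iv))) (not_le.2 hiv)

end Pool.Agent.MX
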