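import Pool.Agent.MX.Defs
/-! Row I1 of MP_130685 MixedIntersections (helper46): counting the good residues of `g`. -/
set_option autoImplicit false
open Finset Pool.Agent.Helper11.ZP Pool.Agent.Helper20.ZT Pool.Agent.II

namespace Pool.Agent.MX

variable {δ : Fin 3 → ℕ} {p : ℕ}

/-- the exponents which occur in one of the leading coefficients -/
def OnAxis (δ : Fin 3 → ℕ) (j : BoxIdx δ) : Prop := ∃ k, ∀ i, i ≠ k → j i = Fin.last (δ i)

theorem onAxis_gMon (k : Fin 3) (e : Fin (δ k + 1)) : ∀ i, i ≠ k → gMon δ k e i = Fin.last (δ i) := by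
  intro i hi
  unfold gMon gTop
  rw [Function.update_of_ne hi]

theorem gMon_self (k : Fin 3) (e : Fin (δ k + 1)) : gMon δ k e k = e := by
  unfold gMon
  rw [Function.update_self]

theorem eq_gMon {k : Fin 3} {j : BoxIdx δ} (h : ∀ i, i ≠ k → j i = Fin.last (δ i)) :
    j = gMon δ k (j k) := by
  funext i
  by_cases hi : i = k
  · subst hi
    rw [gMon_self]
  · rw [onAxis_gMon k _ i hi, h i hi]

/-- the number of exponents on the axes -/
theorem card_onAxis (δ : Fin 3 → ℕ) [DecidablePred (OnAxis δ)] :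
    (univ.filter (OnAxis δ)).card ≤ 1 + ∑ k, δ k := by
  classical
  have hsub : univ.filter (OnAxis δ) ⊆ insert (gTop δ) (univ.biUnion fun k : Fin 3 =>
      (univ : Finset (Fin (δ k))).image (fun e => gMon δ k e.castSucc)) := by
    intro j hj
    obtain ⟨k, hk⟩ := (mem_filter.1 hj).2
    by_cases h : j k = Fin.last (δ k)
    · rw [mem_insert]
      left
      funext i
      by_cases hi : i = k
      · subst hi
        exact h
      · exact hk i hi
    · rw [mem_insert]
      right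
      rw [mem_biUnion]
      refine ⟨k, mem_univ _, ?_⟩
      rw [mem_image]
      refine ⟨(j k).castPred h, mem_univ _, ?_⟩
      rw [Fin.castSucc_castPred]
      exact (eq_gMon hk).symm
  refine (card_le_card hsub).trans ((card_insert_le _ _).trans ?_)
  have h1 : (univ.biUnion fun k : Fin 3 =>
      (univ : Finset (Fin (δ k))).image (fun e => gMon δ k e.castSucc)).card ≤ ∑ k, δ k := by
    refine card_biUnion_le.trans (sum_le_sum fun k _ => card_image_le.trans ?_)
    rw [card_univ, Fintype.card_fin]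
  omega

section build
variable [hp : Fact p.Prime]

/-- the polynomial with the roots `S` -/
noncomputable def rp (S : Finset (ZMod p)) : Polynomial (ZMod p) :=
  ∏ r ∈ S, (Polynomial.X - Polynomial.C r)

theorem rp_top (S : Finset (ZMod p)) {m : ℕ} (h : S.card = m) : (rp S).coeff m = 1 := by
  have h1 : (rp S).Monic := Polynomial.monic_prod_X_sub_C (fun r => r) S
  have h2 : (rp S).natDegree = m := by
    rw [← h]
    exact Polynomial.natDegree_finsetProd_X_sub_C_eq_card S (fun r => r)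
  rw [← h2]
  exact h1

theorem rp_inj {S T : Finset (ZMod p)} {m : ℕ} (hS : S.card = m) (hT : T.card = m)
    (h : ∀ e : Fin (m + 1), (rp S).coeff e = (rp T).coeff e) : S = T := by
  have d : ∀ {U : Finset (ZMod p)}, U.card = m → (rp U).natDegree = m := by
    intro U hU
    rw [← hU]
    exact Polynomial.natDegree_finsetProd_X_sub_C_eq_card U (fun r => r)
  have h1 : rp S = rp T := by
    ext e
    by_cases he : e < m + 1
    · exact h ⟨e, he⟩
    · rw [Polynomial.coeff_eq_zero_of_natDegree_lt (by rw [d hS]; omega),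
        Polynomial.coeff_eq_zero_of_natDegree_lt (by rw [d hT]; omega)]
  have h2 : (rp S).roots = (rp T).roots := by rw [h1]
  unfold rp at h2
  rw [Polynomial.roots_prod_X_sub_C, Polynomial.roots_prod_X_sub_C] at h2
  exact Finset.val_inj.1 h2

open Classical in
/-- the coefficients with given data -/
noncomputable def bld (δ : Fin 3 → ℕ) (β : ZMod p) (S : Fin 3 → Finset (ZMod p))
    (g : {j : BoxIdx δ // ¬ OnAxis δ j} → ZMod p) (j : BoxIdx δ) : ZMod p :=
  if h : OnAxis δ j then β * (rp (S h.choose)).coeff (j h.choose) else g ⟨j, h⟩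

theorem bld_axis {β : ZMod p} {S : Fin 3 → Finset (ZMod p)} (hS : ∀ k, (S k).card = δ k)
    (g : {j : BoxIdx δ // ¬ OnAxis δ j} → ZMod p) {k : Fin 3} {j : BoxIdx δ}
    (h : ∀ i, i ≠ k → j i = Fin.last (δ i)) :
    bld δ β S g j = β * (rp (S k)).coeff (j k) := by
  have hj : OnAxis δ j := ⟨k, h⟩
  unfold bld
  rw [dif_pos hj]
  by_cases hk : hj.choose = k
  · rw [hk]
  · have h1 : (j hj.choose) = Fin.last (δ hj.choose) := h _ hk
    have h2 : j k = Fin.last (δ k) := hj.choose_spec k (fun h0 => hk h0.symm)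
    rw [h1, h2, Fin.val_last, Fin.val_last, rp_top _ (hS _), rp_top _ (hS _)]

theorem bld_gMon {β : ZMod p} {S : Fin 3 → Finset (ZMod p)} (hS : ∀ k, (S k).card = δ k)
    (g : {j : BoxIdx δ // ¬ OnAxis δ j} → ZMod p) (k : Fin 3) (e : Fin (δ k + 1)) :
    bld δ β S g (gMon δ k e) = β * (rp (S k)).coeff e := by
  rw [bld_axis hS g (onAxis_gMon k e), gMon_self]

theorem bld_gTop {β : ZMod p} {S : Fin 3 → Finset (ZMod p)} (hS : ∀ k, (S k).card = δ k)
    (g : {j : BoxIdx δ // ¬ OnAxis δ j} → ZMod p) : bld δ β S g (gTop δ) = β := by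
  have h : gTop δ = gMon δ 0 (Fin.last _) := by
    unfold gMon
    rw [Function.eq_update_iff]
    exact ⟨rfl, fun _ _ => rfl⟩
  rw [h, bld_gMon hS, Fin.val_last, rp_top _ (hS 0), mul_one]

theorem bld_good {R : Set (ZMod p)} {β : ZMod p} (hβ : β ≠ 0) {S : Fin 3 → Finset (ZMod p)}
    (hS : ∀ k, (S k).card = δ k) (hR : ∀ k, ∀ r ∈ S k, r ∈ R)
    (g : {j : BoxIdx δ // ¬ OnAxis δ j} → ZMod p) : GoodG p R δ (bld δ β S g) := by
  refine ⟨by rw [bld_gTop hS]; exact hβ, fun k => ?_⟩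
  refine ⟨fun l => ((S k).equivFinOfCardEq (hS k)).symm l, fun l => hR k _ (Subtype.coe_prop _), ?_⟩
  intro e
  rw [bld_gMon hS, bld_gTop hS]
  congr 2
  unfold rp
  rw [← Finset.prod_coe_sort (S k) (fun r => (Polynomial.X - Polynomial.C r : Polynomial (ZMod p)))]
  exact (Equiv.prod_comp ((S k).equivFinOfCardEq (hS k)).symm
    (fun r : S k => (Polynomial.X - Polynomial.C (r : ZMod p) : Polynomial (ZMod p)))).symm

theorem bld_inj {β β' : ZMod p} (hβ : β ≠ 0) {S S' : Fin 3 → Finset (ZMod p)}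
    (hS : ∀ k, (S k).card = δ k) (hS' : ∀ k, (S' k).card = δ k)
    {g g' : {j : BoxIdx δ // ¬ OnAxis δ j} → ZMod p} (h : bld δ β S g = bld δ β' S' g') :
    β = β' ∧ S = S' ∧ g = g' := by
  have h1 : β = β' := by
    have := congrFun h (gTop δ)
    rwa [bld_gTop hS, bld_gTop hS'] at this
  subst h1
  refine ⟨rfl, ?_, ?_⟩
  · funext k
    apply rp_inj (hS k) (hS' k)
    intro e
    have := congrFun h (gMon δ k e)
    rw [bld_gMon hS, bld_gMon hS'] at this
    exact mul_left_cancel₀ hβ this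
  · funext j
    have := congrFun h j.1
    unfold bld at this
    rwa [dif_neg j.2, dif_neg j.2] at this

end build

/-- Row I1. Vectors of residues with `GoodG` -/
theorem card_goodG (δ : Fin 3 → ℕ) : ∃ c : ℝ, 0 < c ∧ ∃ P₀ : ℕ, ∀ p : ℕ, p.Prime → P₀ ≤ p →
    ∀ R : Set (ZMod p), (p : ℝ) / 2 ≤ (Nat.card R : ℝ) →
      c * (p : ℝ) ^ Fintype.card (BoxIdx δ) ≤
        (Nat.card {b : BoxIdx δ → ZMod p // GoodG p R δ b} : ℝ) := by
  classical
  refine ⟨(1 / 2) * ∏ k, (1 / (4 ^ δ k * (δ k).factorial : ℝ)), by positivity,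
    max 2 (∑ k, 4 * δ k), ?_⟩
  intro p hp hP R hR
  have : Fact p.Prime := ⟨hp⟩
  have hp2 : 2 ≤ p := hp.two_le
  have hp4 : ∀ k, 4 * δ k ≤ p := fun k =>
    (single_le_sum (f := fun k => 4 * δ k) (fun _ _ => Nat.zero_le _) (mem_univ k)).trans
      ((le_max_right _ _).trans hP)
  set Rf : Finset (ZMod p) := R.toFinset with hRf
  have hRc : (p : ℝ) / 2 ≤ (Rf.card : ℝ) := by
    rwa [hRf, Set.toFinset_card, ← Nat.card_eq_fintype_card]
  -- the parameters
  let Dom : Type := {β : ZMod p // β ≠ 0} ×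
    (((k : Fin 3) → {S : Finset (ZMod p) // S ∈ powersetCard (δ k) Rf}) ×
      ({j : BoxIdx δ // ¬ OnAxis δ j} → ZMod p))
  let Φ : Dom → {b : BoxIdx δ → ZMod p // GoodG p R δ b} := fun x =>
    ⟨bld δ x.1.1 (fun k => (x.2.1 k).1) x.2.2, bld_good x.1.2
      (fun k => (mem_powersetCard.1 (x.2.1 k).2).2)
      (fun k r hr => Set.mem_toFinset.1 ((mem_powersetCard.1 (x.2.1 k).2).1 hr)) _⟩
  have hΦ : Function.Injective Φ := by
    rintro ⟨⟨β, hβ⟩, S, g⟩ ⟨⟨β', hβ'⟩, S', g'⟩ heq
    have h1 := congrArg Subtype.val heq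
    obtain ⟨h2, h3, h4⟩ := bld_inj hβ (fun k => (mem_powersetCard.1 (S k).2).2)
      (fun k => (mem_powersetCard.1 (S' k).2).2) h1
    have h5 : S = S' := by
      funext k
      exact Subtype.ext (congrFun h3 k)
    simp only at h2 h4
    subst h2 h4 h5
    rfl
  have h1 : Fintype.card Dom ≤ Nat.card {b : BoxIdx δ → ZMod p // GoodG p R δ b} := by
    rw [Nat.card_eq_fintype_card]
    exact Fintype.card_le_of_injective Φ hΦ
  have h2 : Fintype.card Dom = (p - 1) * ((∏ k, (Rf.card).choose (δ k)) *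
      p ^ Fintype.card {j : BoxIdx δ // ¬ OnAxis δ j}) := by
    have e1 : ∀ k, Fintype.card {S : Finset (ZMod p) // S ∈ powersetCard (δ k) Rf} =
        (Rf.card).choose (δ k) := fun k => by rw [Fintype.card_coe, card_powersetCard]
    have e2 : Fintype.card {β : ZMod p // β ≠ 0} = p - 1 := by
      rw [Fintype.card_subtype_compl, Fintype.card_subtype_eq, ZMod.card]
    rw [Fintype.card_prod, Fintype.card_prod, Fintype.card_pi, Fintype.card_fun, ZMod.card, e2]
    simp only [e1]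
  have h3 : Fintype.card (BoxIdx δ) ≤ Fintype.card {j : BoxIdx δ // ¬ OnAxis δ j} + (1 + ∑ k, δ k) := by
    have e1 : Fintype.card {j : BoxIdx δ // ¬ OnAxis δ j} =
        (univ.filter (fun j => ¬ OnAxis δ j)).card := Fintype.card_subtype _
    have e2 := card_onAxis δ
    have e3 := Finset.card_filter_add_card_filter_not (s := (univ : Finset (BoxIdx δ))) (OnAxis δ)
    rw [card_univ] at e3
    omega
  have hp1 : (1 : ℝ) ≤ p := by exact_mod_cast hp.one_lt.le
  have hpos : (0 : ℝ) < p := by linarith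
  -- the binomial coefficients
  have h4 : ∀ k, (p : ℝ) ^ δ k * (1 / (4 ^ δ k * (δ k).factorial : ℝ)) ≤
      ((Rf.card).choose (δ k) : ℝ) := by
    intro k
    have e1 := Nat.pow_le_choose (α := ℝ) (δ k) Rf.card
    have e2 : (p : ℝ) / 4 ≤ ((Rf.card + 1 - δ k : ℕ) : ℝ) := by
      have e3 : (4 * (δ k : ℝ)) ≤ p := by exact_mod_cast hp4 k
      have e4 : (δ k : ℝ) ≤ Rf.card := by linarith
      have e5 : δ k ≤ Rf.card := by exact_mod_cast e4
      rw [Nat.cast_sub (by omega)]
      push_cast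
      linarith
    calc (p : ℝ) ^ δ k * (1 / (4 ^ δ k * (δ k).factorial : ℝ))
        = ((p : ℝ) / 4) ^ δ k / (δ k).factorial := by
          rw [div_pow]
          field_simp
      _ ≤ (((Rf.card + 1 - δ k : ℕ) : ℝ)) ^ δ k / (δ k).factorial := by gcongr
      _ ≤ _ := by exact_mod_cast e1
  have h5 : (p : ℝ) / 2 ≤ ((p - 1 : ℕ) : ℝ) := by
    rw [Nat.cast_sub (by omega)]
    have : (2 : ℝ) ≤ p := by exact_mod_cast hp2
    push_cast
    linarith
  have h6 : (p : ℝ) ^ (∑ k, δ k) * ∏ k, (1 / (4 ^ δ k * (δ k).factorial : ℝ)) ≤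
      ∏ k, ((Rf.card).choose (δ k) : ℝ) := by
    rw [← prod_pow_eq_pow_sum, ← prod_mul_distrib]
    exact prod_le_prod (fun k _ => by positivity) fun k _ => h4 k
  set c₀ : ℝ := ∏ k, (1 / (4 ^ δ k * (δ k).factorial : ℝ)) with hc₀
  have hc₀' : 0 ≤ c₀ := by rw [hc₀]; positivity
  calc (1 / 2) * c₀ * (p : ℝ) ^ Fintype.card (BoxIdx δ)
      ≤ (1 / 2) * c₀ *
        (p : ℝ) ^ (Fintype.card {j : BoxIdx δ // ¬ OnAxis δ j} + (1 + ∑ k, δ k)) := by
        apply mul_le_mul_of_nonneg_left (pow_le_pow_right₀ hp1 h3)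
        positivity
    _ = ((p : ℝ) / 2) * (((p : ℝ) ^ (∑ k, δ k) * c₀) *
        (p : ℝ) ^ Fintype.card {j : BoxIdx δ // ¬ OnAxis δ j}) := by
        rw [pow_add, pow_add, pow_one]
        ring
    _ ≤ ((p - 1 : ℕ) : ℝ) * ((∏ k, ((Rf.card).choose (δ k) : ℝ)) *
        (p : ℝ) ^ Fintype.card {j : BoxIdx δ // ¬ OnAxis δ j}) := by
        gcongr
    _ = ((Fintype.card Dom : ℕ) : ℝ) := by
        rw [h2]
        push_cast
        ring
    _ ≤ (Nat.card {b : BoxIdx δ → ZMod p // GoodG p R δ b} : ℝ) := by exact_mod_cast h1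

end Pool.Agent.MX
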